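import Pool.Agent.Lib.MP_ed6522_an.Tri.Spec

/-!
# Closed chains in every direction (module CHN)
-/

set_option autoImplicit false

open Set Topology Filter Complex
open scoped Real ComplexConjugate

namespace Pool.Agent.Lib.MP_ed6522_an.Tri

namespace CHNM

variable {m : ℕ} {om : Fin m → ℂ}

theorem continuous_DD (om : Fin m → ℂ) (b : ℂ) : Continuous (DD om b) := by
  unfold DD V
  refine continuous_finsetProd _ fun j _ => ?_
  exact continuous_const.sub Complex.continuous_conj

/-- the step: for small changes of the angle the discriminant changes by a factor in the slit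
plane -/
theorem exists_delta {b : ℂ} (h0 : ∀ a : ℂ, ‖a‖ = 1 → DD om b a ≠ 0) :
    ∃ δ : ℝ, 0 < δ ∧ ∀ a : ℂ, ‖a‖ = 1 → ∀ τ : ℝ, |τ| ≤ δ →
      DD om b (a * exp ((τ : ℂ) * I)) / DD om b a ∈ slitPlane := by
  have hc : IsCompact (Metric.sphere (0 : ℂ) 1) := isCompact_sphere _ _
  have hne : (Metric.sphere (0 : ℂ) 1).Nonempty := ⟨1, by simp⟩
  obtain ⟨a₁, ha₁, hmin⟩ := hc.exists_isMinOn hne ((continuous_DD om b).norm.continuousOn)
  have hμ : 0 < ‖DD om b a₁‖ := norm_pos_iff.2 (h0 a₁ (by simpa using ha₁))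
  have huc := hc.uniformContinuousOn_of_continuous (continuous_DD om b).continuousOn
  rw [Metric.uniformContinuousOn_iff] at huc
  obtain ⟨δ, hδ, hh⟩ := huc _ hμ
  refine ⟨δ / 2, by positivity, fun a ha τ hτ => ?_⟩
  have ha' : a ∈ Metric.sphere (0 : ℂ) 1 := by simpa using ha
  have hb' : a * exp ((τ : ℂ) * I) ∈ Metric.sphere (0 : ℂ) 1 := by
    rw [mem_sphere_zero_iff_norm, norm_mul, ha, one_mul, Complex.norm_exp_ofReal_mul_I]
  refine div_mem_slitPlane (h0 a ha) ?_
  have h1 : dist (a * exp ((τ : ℂ) * I)) a < δ := by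
    rw [dist_eq_norm]
    have : a * exp ((τ : ℂ) * I) - a = a * (exp ((τ : ℂ) * I) - 1) := by ring
    rw [this, norm_mul, ha, one_mul]
    have := norm_exp_sub_one_le τ
    linarith
  have h2 := hh _ hb' _ ha' h1
  rw [dist_eq_norm] at h2
  exact h2.trans_le (hmin ha')

section

variable (om) (b : ℂ) (h : ℝ)

/-- the values of `a` along the leaf -/
noncomputable def aa (j : ℕ) : ℂ := exp (((j * h : ℝ) : ℂ) * I)

theorem norm_aa (j : ℕ) : ‖aa h j‖ = 1 := Complex.norm_exp_ofReal_mul_I _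

theorem aa_ne_zero (j : ℕ) : aa h j ≠ 0 := Complex.exp_ne_zero _

theorem aa_succ (j : ℕ) : aa h (j + 1) = aa h j * exp ((h : ℂ) * I) := by
  rw [aa, aa, ← Complex.exp_add]
  congr 1
  push_cast; ring

theorem aa_period {M : ℕ} (hM : (M : ℝ) * h = 2 * π) (j : ℕ) : aa h (j + M) = aa h j := by
  have h1 : (((↑(j + M) : ℝ) * h : ℝ) : ℂ) * I = ((j * h : ℝ) : ℂ) * I + 2 * π * I := by
    have h2 : ((j + M : ℕ) : ℝ) * h = j * h + 2 * π := by
      push_cast
      rw [add_mul, hM]
    rw [h2]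
    push_cast; ring
  rw [aa, aa, h1, Complex.exp_add, Complex.exp_two_pi_mul_I, mul_one]

/-- the values of the discriminant along the leaf -/
noncomputable def vv (j : ℕ) : ℂ := DD om b (aa h j)

theorem vv_period {M : ℕ} (hM : (M : ℝ) * h = 2 * π) (j : ℕ) : vv om b h (j + M) = vv om b h j := by
  rw [vv, vv, aa_period h hM]

/-- the values of `w` along the leaf -/
noncomputable def ww : ℕ → ℂ
  | 0 => (vv om b h 0) ^ (((2 : ℕ) : ℂ)⁻¹)
  | (j + 1) => ww j * (vv om b h (j + 1) / vv om b h j) ^ (((2 : ℕ) : ℂ)⁻¹)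

theorem ww_succ (j : ℕ) : ww om b h (j + 1) =
    ww om b h j * (vv om b h (j + 1) / vv om b h j) ^ (((2 : ℕ) : ℂ)⁻¹) := rfl

variable {om} {b} {h}

theorem ww_pow (h0 : ∀ j, vv om b h j ≠ 0) (j : ℕ) : ww om b h j ^ 2 = vv om b h j := by
  induction j with
  | zero => rw [ww, Complex.cpow_nat_inv_pow _ (by omega)]
  | succ j ih =>
    rw [ww, mul_pow, ih, Complex.cpow_nat_inv_pow _ (by omega)]
    have := h0 j
    field_simp

theorem ww_ne_zero (h0 : ∀ j, vv om b h j ≠ 0) (j : ℕ) : ww om b h j ≠ 0 := by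
  intro h1
  have h2 := ww_pow h0 j
  rw [h1, zero_pow (by omega)] at h2
  exact h0 j h2.symm

theorem ww_shift (h0 : ∀ j, vv om b h j ≠ 0) {M : ℕ} (hM : (M : ℝ) * h = 2 * π) (j : ℕ) :
    ww om b h (j + M) = ww om b h j * (ww om b h M / ww om b h 0) := by
  induction j with
  | zero =>
    have := ww_ne_zero h0 0
    rw [zero_add]; field_simp
  | succ j ih =>
    have h1 : j + 1 + M = (j + M) + 1 := by ring
    rw [h1, ww_succ, ih, ww_succ om b h j]
    have h2 : vv om b h (j + M + 1) = vv om b h (j + 1) := by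
      rw [← h1, vv_period om b h hM]
    rw [h2, vv_period om b h hM]; ring

theorem ww_closed (h0 : ∀ j, vv om b h j ≠ 0) {M : ℕ} (hM : (M : ℝ) * h = 2 * π) :
    ww om b h (M + M) = ww om b h 0 := by
  rw [ww_shift h0 hM]
  have h1 := ww_pow h0 M
  have h2 := ww_pow h0 0
  have h3 : vv om b h M = vv om b h 0 := by
    have := vv_period om b h hM 0
    rwa [zero_add] at this
  have h4 := ww_ne_zero h0 0
  rw [h3, ← h2] at h1
  field_simp
  rw [h1]

theorem aa_closed {M : ℕ} (hM : (M : ℝ) * h = 2 * π) : aa h (M + M) = aa h 0 := by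
  rw [aa_period h hM]
  have := aa_period h hM 0
  rwa [zero_add] at this

end

/-- the chain in direction `b` -/
theorem exists_chain_of (hR : RegS om) (hC : CntS om) {b : ℂ} (hb : ‖b‖ = 1)
    (hbr : ∀ j s, b ≠ br om j s) : Nonempty (ChainT om b) := by
  have h0 : ∀ a : ℂ, ‖a‖ = 1 → DD om b a ≠ 0 := by
    intro a ha h1
    obtain ⟨-, j, s, h2⟩ := (hC.zero b a hb ha).1 h1
    exact hbr j s h2
  obtain ⟨δ, hδ, hstep⟩ := exists_delta h0
  -- the number of steps
  obtain ⟨M, hM1⟩ := exists_nat_gt (2 * π / min δ 1)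
  have hmin : 0 < min δ 1 := lt_min hδ one_pos
  have hpi := Real.pi_pos
  have hM0 : (0 : ℝ) < M := lt_trans (by positivity) hM1
  have hM0' : 0 < M := by exact_mod_cast hM0
  obtain ⟨h, hh⟩ : ∃ h : ℝ, h = 2 * π / M := ⟨_, rfl⟩
  have hM : (M : ℝ) * h = 2 * π := by rw [hh]; field_simp
  have hh0 : 0 < h := by rw [hh]; positivity
  have hhmin : h < min δ 1 := by
    rw [hh, div_lt_iff₀ hM0]
    rw [div_lt_iff₀ hmin] at hM1
    linarith
  have hhδ : h < δ := lt_of_lt_of_le hhmin (min_le_left _ _)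
  have hh1 : h < 1 := lt_of_lt_of_le hhmin (min_le_right _ _)
  have hhpi : h < π := by
    have := Real.pi_gt_three
    linarith
  have hv0 : ∀ j, vv om b h j ≠ 0 := fun j => h0 _ (norm_aa h j)
  have hratio : ∀ (j : ℕ) (τ : ℝ), |τ| ≤ h →
      DD om b (aa h j * exp ((τ : ℂ) * I)) / vv om b h j ∈ slitPlane := fun j τ hτ =>
    hstep _ (norm_aa h j) τ (hτ.trans hhδ.le)
  have hratio' : ∀ j : ℕ, vv om b h (j + 1) / vv om b h j ∈ slitPlane := by
    intro j
    have := hratio j h (by rw [abs_of_pos hh0])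
    rwa [← aa_succ] at this
  -- the points
  have hmem : ∀ j, ((b, aa h j, ww om b h j) : ℂ × ℂ × ℂ) ∈ XTset om := fun j =>
    ⟨hb, norm_aa h j, ww_pow hv0 j⟩
  obtain ⟨x, hx⟩ : ∃ x : ℕ → XT om, ∀ j, x j = ⟨(b, aa h j, ww om b h j), hmem j⟩ :=
    ⟨fun j => ⟨(b, aa h j, ww om b h j), hmem j⟩, fun j => rfl⟩
  have hbt : ∀ j, bt (x j) = b := fun j => by rw [hx]; rfl
  have hat : ∀ j, at' (x j) = aa h j := fun j => by rw [hx]; rfl
  have hwt : ∀ j, wt (x j) = ww om b h j := fun j => by rw [hx]; rfl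
  have hxw : ∀ j, wt (x j) ≠ 0 := fun j => by rw [hwt]; exact ww_ne_zero hv0 j
  have hxN : x (M + M) = x 0 := by
    rw [hx, hx]
    apply Subtype.ext
    change ((b, aa h (M + M), ww om b h (M + M)) : ℂ × ℂ × ℂ) = (b, aa h 0, ww om b h 0)
    rw [aa_closed hM, ww_closed hv0 hM]
  -- the charts
  choose E hE1 hE2 hE3 hE4 using hR.chart
  have hEcongr : ∀ (P Q : XT om) (hP : wt P ≠ 0) (hQ : wt Q ≠ 0), P = Q → E P hP = E Q hQ := by
    intro P Q hP hQ hPQ
    subst hPQ
    rfl
  have harg : ∀ j : ℕ, arg (aa h (j + 1) / aa h j) = h := by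
    intro j
    rw [aa_succ, mul_div_cancel_left₀ _ (aa_ne_zero h j)]
    exact arg_exp_of (by rw [abs_of_pos hh0]; exact hhpi)
  have hsl : ∀ j : ℕ, aa h (j + 1) / aa h j ∈ slitPlane := by
    intro j
    rw [aa_succ, mul_div_cancel_left₀ _ (aa_ne_zero h j)]
    exact exp_mem_slitPlane (by rw [abs_of_pos hh0]; exact hhpi)
  have hself : ∀ j : ℕ, E (x j) (hxw j) (x j) = b := by
    intro j
    rw [hE2, zt, hat, div_self (aa_ne_zero h j), Complex.arg_one, mul_zero, Real.exp_zero,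
      Complex.ofReal_one, one_mul, hbt]
  have hsucc : ∀ j : ℕ, E (x j) (hxw j) (x (j + 1)) = (Real.exp (5 / 4 * h) : ℂ) * b := by
    intro j
    rw [hE2, zt, hat, hat, harg, hbt]
  have hexp : 1 < Real.exp (5 / 4 * h) := by
    rw [Real.one_lt_exp_iff]
    positivity
  have hb0 : b ≠ 0 := by rw [← norm_pos_iff, hb]; exact one_pos
  refine ⟨{
    N := M + M
    e := fun j => E (x j) (hxw j)
    x := x
    r := fun _ => Real.exp (5 / 4 * h) - 1
    a := fun _ => Real.exp (-(5 / 4 * h))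
    c := fun _ => 0
    N_pos := by omega
    e_N := hEcongr _ _ _ _ hxN
    x_N := hxN
    mem_atlas := fun j _ => hE1 _ _
    r_pos := fun _ _ => by linarith
    mem_left := ?_
    mem_right := ?_
    step := ?_
    seg := ?_
    a_pos := fun _ _ => Real.exp_pos _
    trans := ?_
    hol := ?_ }⟩
  · intro j _
    rw [hE3, hat, div_self (aa_ne_zero h j), div_self (hxw j)]
    exact ⟨Complex.one_mem_slitPlane, by norm_num⟩
  · intro j _
    rw [hE3, hat, hat]
    refine ⟨hsl j, ?_⟩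
    rw [hwt, hwt, ww_succ, mul_div_cancel_left₀ _ (ww_ne_zero hv0 j)]
    have h1 := root_mem_Sec (n := 2) (by norm_num) (hratio' j)
    have h2 : |arg ((vv om b h (j + 1) / vv om b h j) ^ (((2 : ℕ) : ℂ)⁻¹))| < π / 2 := by
      have := h1.2
      push_cast at this ⊢
      exact this
    rw [Complex.abs_arg_lt_pi_div_two_iff] at h2
    rcases h2 with h2 | h2
    · exact h2
    · exact absurd h2 (slitPlane_ne_zero h1.1)
  · intro j _
    beta_reduce
    rw [hsucc, hself]
    push_cast; ring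
  · intro j _ t ht
    beta_reduce
    rw [hself, hE4]
    have hs1 : 1 ≤ 1 + t := by linarith [ht.1]
    have hs0 : 0 < 1 + t := by linarith
    have hs2 : 1 + t ≤ Real.exp (5 / 4 * h) := by linarith [ht.2]
    have hz : b + t * b = ((1 + t : ℝ) : ℂ) * b := by push_cast; ring
    have hnorm : ‖b + t * b‖ = 1 + t := by
      rw [hz, norm_mul, hb, mul_one, Complex.norm_real, Real.norm_of_nonneg hs0.le]
    have hδ0 : 0 ≤ 4 / 5 * Real.log (1 + t) := by
      have := Real.log_nonneg hs1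
      positivity
    have hδ1 : 4 / 5 * Real.log (1 + t) ≤ h := by
      have : Real.log (1 + t) ≤ 5 / 4 * h := by
        rw [← Real.log_exp (5 / 4 * h)]
        exact Real.log_le_log hs0 hs2
      linarith
    rw [hnorm, abs_of_nonneg hδ0]
    refine ⟨⟨?_, hδ1.trans_lt hhpi⟩, ?_⟩
    · rw [hz]
      apply mul_ne_zero _ hb0
      exact_mod_cast hs0.ne'
    · have hbz : bz (b + t * b) = b := by
        rw [bz, hnorm, hz]
        have : ((1 + t : ℝ) : ℂ) ≠ 0 := by exact_mod_cast hs0.ne'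
        field_simp
      rw [hbz, az, hnorm, hat, hwt, ww_pow hv0]
      exact hratio j _ (by rw [abs_of_nonneg hδ0]; exact hδ1)
  · intro j _
    have h1 : at' (x (j + 1)) / at' (x j) ∈ slitPlane := by
      rw [hat, hat]
      exact hsl j
    have hn : ‖at' (x j)‖ = 1 := by rw [hat]; exact norm_aa h j
    have h2 := hR.trans (at' (x j)) hn (x (j + 1)) h1
    filter_upwards [h2] with y hy
    rw [hE2, hE2, hy]
    have h3 : at' (x (j + 1)) / at' (x j) = aa h (j + 1) / aa h j := by rw [hat, hat]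
    rw [h3, harg, Real.exp_neg, Complex.ofReal_inv, add_zero]
    have h4 : ((Real.exp (5 / 4 * h) : ℝ) : ℂ) ≠ 0 := by
      exact_mod_cast (Real.exp_pos _).ne'
    rw [← mul_assoc, inv_mul_cancel₀ h4, one_mul]
  · rw [Finset.prod_const, Finset.card_range]
    apply ne_of_lt
    apply pow_lt_one₀ (Real.exp_pos _).le _ (by omega)
    rw [Real.exp_lt_one_iff]
    linarith

end CHNM

open CHNM in
/-- CHN: closed chains in every direction -/
theorem specCHN : SpecCHN := by
  intro m om hG hR hC u hu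
  by_cases h : ∀ j s, u ≠ br om j s
  · exact Or.inl (exists_chain_of hR hC hu h)
  · right
    push Not at h
    obtain ⟨j, s, h1⟩ := h
    refine exists_chain_of hR hC (by rw [norm_neg]; exact hu) fun k t h2 => ?_
    refine hG.anti j k s t ?_
    rw [← h1, ← h2, neg_neg]

end Pool.Agent.Lib.MP_ed6522_an.Tri
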