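import Pool.Agent.Lib.MP_ed6522_an.Tri.Spec

/-!
# CNT: the zeros of the discriminant, the number of the cone points
-/

set_option autoImplicit false

open Set Topology Filter Complex
open scoped Real ComplexConjugate

namespace Pool.Agent.Lib.MP_ed6522_an.Tri

namespace CNTM

lemma bp_re (s : Bool) : (bp s).re = 3 / 5 := by
  cases s <;> simp [bp, bplus]

lemma bp_im (s : Bool) : (bp s).im = if s then 4 / 5 else -(4 / 5) := by
  cases s <;> simp [bp, bplus]

lemma norm_bp (s : Bool) : ‖bp s‖ = 1 := by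
  have h : ‖bp s‖ ^ 2 = 1 := by
    rw [← Complex.normSq_eq_norm_sq, Complex.normSq_apply, bp_re, bp_im]
    cases s <;> norm_num
  have h0 := norm_nonneg (bp s)
  nlinarith

lemma V_zero {b a : ℂ} (hb : ‖b‖ = 1) (ha : ‖a‖ = 1) : V b a = 0 ↔ a = 1 ∧ ∃ s, b = bp s := by
  have hb2 : b.re * b.re + b.im * b.im = 1 := by
    rw [← Complex.normSq_apply, Complex.normSq_eq_norm_sq, hb]
    norm_num
  have ha2 : a.re * a.re + a.im * a.im = 1 := by
    rw [← Complex.normSq_apply, Complex.normSq_eq_norm_sq, ha]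
    norm_num
  constructor
  · intro h
    have h1 := congrArg Complex.re h
    have h2 := congrArg Complex.im h
    simp only [V, Complex.add_re, Complex.sub_re, Complex.ofReal_re, Complex.conj_re,
      Complex.zero_re, Complex.add_im, Complex.sub_im, Complex.ofReal_im, Complex.conj_im,
      Complex.zero_im] at h1 h2
    norm_num at h1 h2
    have h3 : (a.re - 1) * (a.re + 1) = 0 := by
      rw [h2] at ha2
      linarith
    have h4 : -1 ≤ b.re := by nlinarith [mul_self_nonneg b.im]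
    have h5 : a.re = 1 := by
      rcases mul_eq_zero.1 h3 with h | h
      · linarith
      · exfalso
        linarith
    have h6 : b.re = 3 / 5 := by linarith
    refine ⟨Complex.ext (by simpa using h5) (by simpa using h2), ?_⟩
    have h7 : (b.im - 4 / 5) * (b.im + 4 / 5) = 0 := by
      rw [h6] at hb2
      linarith
    rcases mul_eq_zero.1 h7 with h | h
    · refine ⟨true, Complex.ext (by rw [h6, bp_re]) ?_⟩
      rw [bp_im, if_pos rfl]
      linarith
    · refine ⟨false, Complex.ext (by rw [h6, bp_re]) ?_⟩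
      rw [bp_im, if_neg (by simp)]
      linarith
  · rintro ⟨rfl, s, rfl⟩
    rw [V, bp_re, map_one]
    norm_num

lemma conj_mul_self {w : ℂ} (hw : ‖w‖ = 1) : w * conj w = 1 := by
  rw [Complex.mul_conj, Complex.normSq_eq_norm_sq, hw]
  norm_num

lemma DD_zero {m : ℕ} {om : Fin m → ℂ} (hG : Good om) {b a : ℂ} (hb : ‖b‖ = 1) (ha : ‖a‖ = 1) :
    DD om b a = 0 ↔ a = 1 ∧ ∃ j s, b = br om j s := by
  rw [DD, Finset.prod_eq_zero_iff]
  have h1 : ∀ j, ‖b * conj (om j)‖ = 1 := by
    intro j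
    rw [norm_mul, Complex.norm_conj, hb, hG.norm_om j, one_mul]
  have h2 : ∀ (j : Fin m) (s : Bool), b * conj (om j) = bp s ↔ b = br om j s := by
    intro j s
    have h3 := conj_mul_self (hG.norm_om j)
    rw [br]
    constructor
    · intro h
      rw [← h]
      linear_combination (-b) * h3
    · rintro rfl
      linear_combination (bp s) * h3
  constructor
  · rintro ⟨j, -, h⟩
    obtain ⟨h3, s, h4⟩ := (V_zero (h1 j) ha).1 h
    exact ⟨h3, j, s, (h2 j s).1 h4⟩
  · rintro ⟨h3, j, s, h4⟩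
    exact ⟨j, Finset.mem_univ j, (V_zero (h1 j) ha).2 ⟨h3, s, (h2 j s).2 h4⟩⟩

lemma norm_br {m : ℕ} {om : Fin m → ℂ} (hG : Good om) (j : Fin m) (s : Bool) :
    ‖br om j s‖ = 1 := by
  rw [br, norm_mul, hG.norm_om, norm_bp, one_mul]

/-- the cone point with number `(j, s)` -/
noncomputable def cp {m : ℕ} {om : Fin m → ℂ} (hG : Good om) (x : Fin m × Bool) : XT om :=
  ⟨(br om x.1 x.2, 1, 0), norm_br hG _ _, norm_one, by
    have h := (DD_zero hG (norm_br hG x.1 x.2) norm_one).2 ⟨rfl, x.1, x.2, rfl⟩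
    show (0 : ℂ) ^ 2 = DD om (br om x.1 x.2) 1
    rw [h]
    norm_num⟩

lemma cp_inj {m : ℕ} {om : Fin m → ℂ} (hG : Good om) : Function.Injective (cp hG) := by
  rintro ⟨j, s⟩ ⟨k, t⟩ h
  have h1 := congrArg (fun P : XT om => P.1.1) h
  obtain ⟨h2, h3⟩ := hG.inj j k s t h1
  rw [h2, h3]

lemma sing_eq {m : ℕ} {om : Fin m → ℂ} (hG : Good om) : singT om = Set.range (cp hG) := by
  ext P
  constructor
  · intro hP
    have hw : P.1.2.2 = 0 := hP
    obtain ⟨hb, ha, hD⟩ := P.2
    rw [hw] at hD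
    have hD0 : DD om P.1.1 P.1.2.1 = 0 := by
      rw [← hD]
      norm_num
    obtain ⟨h1, j, s, h2⟩ := (DD_zero hG hb ha).1 hD0
    refine ⟨(j, s), Subtype.ext ?_⟩
    exact (Prod.ext h2 (Prod.ext h1 hw)).symm
  · rintro ⟨x, rfl⟩
    rfl

end CNTM

open CNTM

theorem specCNT : SpecCNT := by
  intro m om hG
  refine ⟨fun b a hb ha => DD_zero hG hb ha, ?_, ?_⟩
  · rw [sing_eq hG]
    exact Set.finite_range _
  · rw [sing_eq hG, ← Set.image_univ, Set.ncard_image_of_injective _ (cp_inj hG), Set.ncard_univ,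
      Nat.card_eq_fintype_card, Fintype.card_prod, Fintype.card_fin, Fintype.card_bool, mul_comm]

end Pool.Agent.Lib.MP_ed6522_an.Tri
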