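import Pool.Agent.Lib.MP_ed6522_an.Tri.Spec

/-!
# Module CONE: the cone points
-/

set_option autoImplicit false

open Set Topology Filter Complex
open scoped Real ComplexConjugate

namespace Pool.Agent.Lib.MP_ed6522_an.Tri

namespace CONEM

variable {m : ℕ} {om : Fin m → ℂ}

theorem norm_bt (P : XT om) : ‖bt P‖ = 1 := P.2.1

theorem norm_at (P : XT om) : ‖at' P‖ = 1 := P.2.2.1

theorem wt_sq (P : XT om) : wt P ^ 2 = DD om (bt P) (at' P) := P.2.2.2

theorem continuous_bt : Continuous (bt : XT om → ℂ) := by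
  unfold bt; fun_prop

theorem continuous_at : Continuous (at' : XT om → ℂ) := by
  unfold at'; fun_prop

theorem continuous_wt : Continuous (wt : XT om → ℂ) := by
  unfold wt; fun_prop

theorem norm_zt (P : XT om) : ‖zt 1 P‖ = Real.exp (5 / 4 * arg (at' P / 1)) := by
  rw [zt, norm_mul, norm_bt, mul_one, Complex.norm_real, Real.norm_of_nonneg (Real.exp_pos _).le]

theorem zt_ne_zero (P : XT om) : zt 1 P ≠ 0 := by
  rw [← norm_pos_iff, norm_zt]; exact Real.exp_pos _

theorem bz_zt (P : XT om) : bz (zt 1 P) = bt P := by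
  rw [bz, norm_zt, zt]
  have : ((Real.exp (5 / 4 * arg (at' P / 1)) : ℝ) : ℂ) ≠ 0 := by
    exact_mod_cast (Real.exp_pos _).ne'
  field_simp

theorem az_zt (P : XT om) : az 1 (zt 1 P) = at' P := by
  rw [az, norm_zt, Real.log_exp]
  have h1 : (4 / 5 * (5 / 4 * arg (at' P / 1)) : ℝ) = arg (at' P / 1) := by ring
  rw [h1]
  have h2 : ‖at' P / 1‖ = 1 := by rw [div_one, norm_at]
  have h3 := Complex.norm_mul_exp_arg_mul_I (at' P / 1)
  rw [h2, Complex.ofReal_one, one_mul] at h3
  rw [h3, div_one, one_mul]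

theorem mem_XT {z w : ℂ} (hz : z ≠ 0) (hw : w ^ 2 = DD om (bz z) (az 1 z)) :
    ((bz z, az 1 z, w) : ℂ × ℂ × ℂ) ∈ XTset om :=
  ⟨norm_bz hz, norm_az norm_one z, hw⟩

theorem zt_of {z w : ℂ} (hz0 : z ≠ 0) (hz : |4 / 5 * Real.log ‖z‖| < π)
    (h : ((bz z, az 1 z, w) : ℂ × ℂ × ℂ) ∈ XTset om) :
    zt 1 (⟨(bz z, az 1 z, w), h⟩ : XT om) = z := by
  have h0 : zt 1 (⟨(bz z, az 1 z, w), h⟩ : XT om) =
      (Real.exp (5 / 4 * arg (az 1 z / 1)) : ℂ) * bz z := rfl
  rw [h0, arg_az norm_one hz]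
  have h1 : (5 / 4 * (4 / 5 * Real.log ‖z‖) : ℝ) = Real.log ‖z‖ := by ring
  rw [h1, Real.exp_log (norm_pos_iff.2 hz0), bz]
  have : (‖z‖ : ℂ) ≠ 0 := by exact_mod_cast (norm_pos_iff.2 hz0).ne'
  field_simp

theorem continuousOn_zt :
    ContinuousOn (zt 1 : XT om → ℂ) {P | at' P / 1 ∈ slitPlane} := by
  unfold zt
  apply ContinuousOn.mul _ continuous_bt.continuousOn
  apply Complex.continuous_ofReal.comp_continuousOn
  apply Real.continuous_exp.comp_continuousOn
  apply ContinuousOn.mul continuousOn_const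
  intro P hP
  apply ContinuousAt.continuousWithinAt
  have h1 : ContinuousAt (fun P : XT om => at' P / 1) P :=
    (continuous_at.div_const 1).continuousAt
  exact ContinuousAt.comp (g := arg) (f := fun P : XT om => at' P / 1)
    (Complex.continuousAt_arg hP) h1

/-- The data of a cone point. -/
structure Dat (om : Fin m → ℂ) (p : ℂ) where
  σ : ℂ →+* ℂ
  σc : Continuous σ
  σσ : ∀ x, σ (σ x) = x
  H : ℂ → ℂ
  Hc : ∀ z, z ≠ 0 → ContinuousAt H z
  Hp : H p ≠ 0
  eq : ∀ z, z ≠ 0 → DD om (bz z) (az 1 z) = σ (z - p) * H z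
  np : ‖p‖ = 1

section
variable {p : ℂ} (X : Dat om p)
include X

theorem p_ne_zero : p ≠ 0 := by
  rw [← norm_pos_iff, X.np]; exact one_pos

theorem exists_rho : ∃ ρ : ℝ, 0 < ρ ∧ ∀ z ∈ Metric.ball p ρ,
    (z ≠ 0 ∧ |4 / 5 * Real.log ‖z‖| < π) ∧ X.H z / X.H p ∈ slitPlane := by
  have h1 : ∀ᶠ z in 𝓝 p, z ≠ 0 ∧ |4 / 5 * Real.log ‖z‖| < π := by
    apply isOpen_annulus.eventually_mem
    refine ⟨p_ne_zero X, ?_⟩
    rw [X.np, Real.log_one, mul_zero, abs_zero]
    exact Real.pi_pos
  have h2 : ∀ᶠ z in 𝓝 p, X.H z / X.H p ∈ slitPlane := by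
    apply ((X.Hc p (p_ne_zero X)).div_const (X.H p)).eventually_mem
    apply Complex.isOpen_slitPlane.mem_nhds
    show X.H p / X.H p ∈ slitPlane
    rw [div_self X.Hp]
    exact Complex.one_mem_slitPlane
  obtain ⟨ρ, hρ, h⟩ := Metric.eventually_nhds_iff.1 (h1.and h2)
  exact ⟨ρ, hρ, fun z hz => h hz⟩

/-- The radius of the domain of the cone chart. -/
noncomputable def rho : ℝ := Classical.choose (exists_rho X)

theorem rho_pos : 0 < rho X := (Classical.choose_spec (exists_rho X)).1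

theorem rho_spec : ∀ z ∈ Metric.ball p (rho X),
    (z ≠ 0 ∧ |4 / 5 * Real.log ‖z‖| < π) ∧ X.H z / X.H p ∈ slitPlane :=
  (Classical.choose_spec (exists_rho X)).2

/-- A root of `H`. -/
noncomputable def rfX (z : ℂ) : ℂ :=
  X.H p ^ (((2 : ℕ) : ℂ)⁻¹) * (X.H z / X.H p) ^ (((2 : ℕ) : ℂ)⁻¹)

theorem rfX_sq (z : ℂ) : rfX X z ^ 2 = X.H z := by
  rw [rfX, mul_pow, Complex.cpow_nat_inv_pow _ (by norm_num : (2 : ℕ) ≠ 0),
    Complex.cpow_nat_inv_pow _ (by norm_num : (2 : ℕ) ≠ 0), mul_div_cancel₀ _ X.Hp]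

theorem H_ne_zero {z : ℂ} (hz : z ∈ Metric.ball p (rho X)) : X.H z ≠ 0 := by
  intro h
  have := slitPlane_ne_zero (rho_spec X z hz).2
  rw [h, zero_div] at this
  exact this rfl

theorem rfX_ne_zero {z : ℂ} (hz : z ∈ Metric.ball p (rho X)) : rfX X z ≠ 0 := by
  intro h
  have h1 := rfX_sq X z
  rw [h, zero_pow (by norm_num)] at h1
  exact H_ne_zero X hz h1.symm

theorem continuousOn_rfX : ContinuousOn (rfX X) (Metric.ball p (rho X)) := by
  unfold rfX
  apply ContinuousOn.mul continuousOn_const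
  apply ContinuousOn.cpow_const
  · intro z hz
    exact ((X.Hc z (rho_spec X z hz).1.1).div_const _).continuousWithinAt
  · intro z hz
    exact (rho_spec X z hz).2

theorem cone_w_sq {ζ : ℂ} (hζ : p + ζ ^ 2 ∈ Metric.ball p (rho X)) :
    (X.σ ζ * rfX X (p + ζ ^ 2)) ^ 2 = DD om (bz (p + ζ ^ 2)) (az 1 (p + ζ ^ 2)) := by
  rw [mul_pow, rfX_sq, X.eq _ (rho_spec X _ hζ).1.1, add_sub_cancel_left, map_pow]

theorem cone_zeta_sq {P : XT om} (hP : zt 1 P ∈ Metric.ball p (rho X)) :
    X.σ (wt P / rfX X (zt 1 P)) ^ 2 = zt 1 P - p := by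
  have h1 : X.H (zt 1 P) ≠ 0 := H_ne_zero X hP
  have h2 : wt P ^ 2 = X.σ (zt 1 P - p) * X.H (zt 1 P) := by
    rw [← X.eq _ (zt_ne_zero P), bz_zt, az_zt, wt_sq]
  rw [← map_pow, div_pow, rfX_sq, h2, mul_div_cancel_right₀ _ h1, X.σσ]

open scoped Classical in
/-- The cone chart. -/
noncomputable def coneX (s₀ : XT om) : OpenPartialHomeomorph (XT om) ℂ where
  toFun P := X.σ (wt P / rfX X (zt 1 P))
  invFun ζ := if h : ((bz (p + ζ ^ 2), az 1 (p + ζ ^ 2), X.σ ζ * rfX X (p + ζ ^ 2)) : ℂ × ℂ × ℂ) ∈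
    XTset om then ⟨_, h⟩ else s₀
  source := {P | at' P / 1 ∈ slitPlane ∧ zt 1 P ∈ Metric.ball p (rho X)}
  target := {ζ | p + ζ ^ 2 ∈ Metric.ball p (rho X)}
  map_source' := by
    rintro P ⟨h1, h2⟩
    change p + X.σ (wt P / rfX X (zt 1 P)) ^ 2 ∈ Metric.ball p (rho X)
    rw [cone_zeta_sq X h2]
    rwa [add_sub_cancel]
  map_target' := by
    intro ζ hζ
    change p + ζ ^ 2 ∈ Metric.ball p (rho X) at hζ
    have hz := (rho_spec X _ hζ).1
    have hw := cone_w_sq X hζ
    have hmem := mem_XT hz.1 hw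
    rw [dif_pos hmem]
    refine ⟨?_, ?_⟩
    · exact az_div_mem norm_one hz.2
    · rw [zt_of hz.1 hz.2 hmem]
      exact hζ
  left_inv' := by
    rintro P ⟨h1, h2⟩
    have h3 := cone_zeta_sq X h2
    have h4 : p + X.σ (wt P / rfX X (zt 1 P)) ^ 2 = zt 1 P := by rw [h3]; ring
    have h5 : X.σ (X.σ (wt P / rfX X (zt 1 P))) * rfX X (zt 1 P) = wt P := by
      rw [X.σσ]
      exact div_mul_cancel₀ _ (rfX_ne_zero X h2)
    simp only [h4, h5, bz_zt, az_zt]
    have : ((bt P, at' P, wt P) : ℂ × ℂ × ℂ) ∈ XTset om := P.2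
    rw [dif_pos this]
    rfl
  right_inv' := by
    intro ζ hζ
    change p + ζ ^ 2 ∈ Metric.ball p (rho X) at hζ
    have hz := (rho_spec X _ hζ).1
    have hw := cone_w_sq X hζ
    have hmem := mem_XT hz.1 hw
    rw [dif_pos hmem, zt_of hz.1 hz.2 hmem]
    change X.σ (X.σ ζ * rfX X (p + ζ ^ 2) / rfX X (p + ζ ^ 2)) = ζ
    rw [mul_div_cancel_right₀ _ (rfX_ne_zero X hζ), X.σσ]
  open_source := by
    have h1 : ContinuousOn (zt 1 : XT om → ℂ) {P | at' P / 1 ∈ slitPlane} := continuousOn_zt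
    exact h1.isOpen_inter_preimage (Complex.isOpen_slitPlane.preimage (continuous_at.div_const _))
      Metric.isOpen_ball
  open_target := by
    apply Metric.isOpen_ball.preimage
    fun_prop
  continuousOn_toFun := by
    apply X.σc.comp_continuousOn
    apply ContinuousOn.div continuous_wt.continuousOn
    · apply (continuousOn_rfX X).comp (continuousOn_zt.mono fun P hP => hP.1)
      intro P hP; exact hP.2
    · intro P hP; exact rfX_ne_zero X hP.2
  continuousOn_invFun := by
    rw [Topology.IsInducing.subtypeVal.continuousOn_iff]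
    have h0 : Continuous (fun ζ : ℂ => p + ζ ^ 2) := by fun_prop
    have h1 : ContinuousOn (fun ζ : ℂ =>
        ((bz (p + ζ ^ 2), az 1 (p + ζ ^ 2), X.σ ζ * rfX X (p + ζ ^ 2)) : ℂ × ℂ × ℂ))
        {ζ | p + ζ ^ 2 ∈ Metric.ball p (rho X)} := by
      apply ContinuousOn.prodMk
      · apply continuousOn_bz.comp h0.continuousOn
        intro ζ hζ
        exact (rho_spec X _ hζ).1.1
      · apply ContinuousOn.prodMk
        · apply (continuousOn_az 1).comp h0.continuousOn
          intro ζ hζ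
          exact (rho_spec X _ hζ).1.1
        · apply ContinuousOn.mul X.σc.continuousOn
          apply (continuousOn_rfX X).comp h0.continuousOn
          intro ζ hζ; exact hζ
    apply h1.congr
    intro ζ hζ
    change p + ζ ^ 2 ∈ Metric.ball p (rho X) at hζ
    have hz := (rho_spec X _ hζ).1
    have hw := cone_w_sq X hζ
    have hmem := mem_XT hz.1 hw
    change Subtype.val (dite _ _ _) = _
    rw [dif_pos hmem]

theorem coneAt (hR : RegS om) (s : XT om) (h1 : at' s = 1) (h2 : bt s = p) (h3 : wt s = 0) :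
    ConeAt (atlasT om) (singT om) s 2 := by
  have hz : zt 1 s = p := by
    rw [zt, h1, div_one, Complex.arg_one, mul_zero, Real.exp_zero, Complex.ofReal_one, one_mul, h2]
  have hs : s ∈ (coneX X s).source := by
    refine ⟨?_, ?_⟩
    · rw [h1, div_one]; exact Complex.one_mem_slitPlane
    · rw [hz]; exact Metric.mem_ball_self (rho_pos X)
  have h0 : coneX X s s = 0 := by
    change X.σ (wt s / _) = 0
    rw [h3, zero_div, map_zero]
  refine ⟨coneX X s, hs, h0, ?_⟩
  intro x hx hxs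
  refine ⟨?_, ?_⟩
  · intro hw
    change wt x = 0 at hw
    have h4 : coneX X s x = 0 := by
      change X.σ (wt x / _) = 0
      rw [hw, zero_div, map_zero]
    apply hxs
    apply (coneX X s).injOn hx hs
    rw [h4, h0]
  · intro e he hxe
    obtain ⟨-, a, ha, c, hc⟩ := he x hxe
    have hE : (0 : ℝ) < Real.exp (5 / 4 * arg (at' x / 1)) := Real.exp_pos _
    have hE' : ((Real.exp (5 / 4 * arg (at' x / 1)) : ℝ) : ℂ) ≠ 0 := by exact_mod_cast hE.ne'
    refine ⟨a * (Real.exp (5 / 4 * arg (at' x / 1)))⁻¹, mul_pos ha (inv_pos.2 hE),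
      a * ((Real.exp (5 / 4 * arg (at' x / 1)))⁻¹ : ℝ) * p + c, ?_⟩
    filter_upwards [hc, hR.trans 1 norm_one x hx.1, (coneX X s).open_source.mem_nhds hx]
      with y hy hy' hys
    have h5 : coneX X s y ^ 2 = zt 1 y - p := cone_zeta_sq X hys.2
    rw [h5, hy', hy]
    push_cast
    push_cast at hE'
    field_simp
    ring

end

theorem az_one_conj (z : ℂ) : az 1 (conj z) = az 1 z := by
  rw [az, az, RCLike.norm_conj]

theorem vz_conj (z : ℂ) : vz 1 (conj z) = vz 1 z := by
  rw [vz, vz, az_one_conj, bz, bz, RCLike.norm_conj, Complex.div_ofReal_re, Complex.div_ofReal_re,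
    Complex.conj_re]

theorem factor (w z : ℂ) (hw : ‖w‖ = 1) : V (bz z * conj w) (az 1 z) = vz 1 (z * conj w) := by
  have h1 : ‖z * conj w‖ = ‖z‖ := by rw [norm_mul, RCLike.norm_conj, hw, mul_one]
  rw [V, vz, az, az, bz, bz, h1, div_mul_eq_mul_div]

theorem continuousAt_factor (w z : ℂ) (hz : z ≠ 0) :
    ContinuousAt (fun z => V (bz z * conj w) (az 1 z)) z := by
  have h0 : {(0 : ℂ)}ᶜ ∈ 𝓝 z := isOpen_compl_singleton.mem_nhds hz
  have h1 : ContinuousAt bz z := continuousOn_bz.continuousAt h0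
  have h2 : ContinuousAt (az 1) z := (continuousOn_az 1).continuousAt h0
  unfold V
  apply ContinuousAt.sub
  · apply ContinuousAt.add _ continuousAt_const
    exact Complex.continuous_ofReal.continuousAt.comp
      (Complex.continuous_re.continuousAt.comp (h1.mul continuousAt_const))
  · exact Complex.continuous_conj.continuousAt.comp h2

theorem az_unit {p : ℂ} (hp : ‖p‖ = 1) : az 1 p = 1 := by
  rw [az, hp, Real.log_one, mul_zero, Complex.ofReal_zero, zero_mul, Complex.exp_zero, one_mul]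

theorem bz_unit {p : ℂ} (hp : ‖p‖ = 1) : bz p = p := by
  rw [bz, hp, Complex.ofReal_one, div_one]

theorem V_zero {b : ℂ} (hb : ‖b‖ = 1) (h : V b 1 = 0) : ∃ t, b = bp t := by
  have h1 := congrArg Complex.re h
  rw [V, map_one] at h1
  simp at h1
  have hre : b.re = 3 / 5 := by linarith
  have h2 : b.re ^ 2 + b.im ^ 2 = 1 := by
    have := Complex.sq_norm b
    rw [hb, Complex.normSq_apply] at this
    nlinarith
  have h3 : (b.im - 4 / 5) * (b.im + 4 / 5) = 0 := by
    rw [hre] at h2; nlinarith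
  rcases mul_eq_zero.1 h3 with h4 | h4
  · refine ⟨true, ?_⟩
    apply Complex.ext
    · rw [hre]; rfl
    · show b.im = 4 / 5
      linarith
  · refine ⟨false, ?_⟩
    apply Complex.ext
    · rw [hre]; rfl
    · show b.im = -(4 / 5 : ℝ)
      linarith

theorem norm_bp' (t : Bool) : ‖bp t‖ = 1 := by
  cases t
  · show ‖conj bplus‖ = 1
    rw [RCLike.norm_conj]; exact norm_bp
  · exact norm_bp

theorem norm_br (hG : Good om) (j : Fin m) (t : Bool) : ‖br om j t‖ = 1 := by
  rw [br, norm_mul, hG.norm_om, norm_bp', mul_one]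

theorem mul_conj_one {w : ℂ} (hw : ‖w‖ = 1) : w * conj w = 1 := by
  rw [Complex.mul_conj, Complex.normSq_eq_norm_sq, hw]
  simp

/-- The data of the cone point `br om j t`. -/
noncomputable def dat (hG : Good om) (j : Fin m) (t : Bool) (σ : ℂ →+* ℂ) (σc : Continuous σ)
    (σσ : ∀ x, σ (σ x) = x) (hvz : ∀ z, vz 1 (σ z) = vz 1 z) (hbp : σ (bp t) = bplus) :
    Dat om (br om j t) where
  σ := σ
  σc := σc
  σσ := σσ
  H z := σ (conj (om j)) * Hf (σ (z * conj (om j))) *
    ∏ k ∈ Finset.univ.erase j, V (bz z * conj (om k)) (az 1 z)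
  Hc := by
    intro z hz
    apply ContinuousAt.mul
    · apply ContinuousAt.mul continuousAt_const
      have h1 : σ (z * conj (om j)) ≠ 0 := by
        rw [Ne, map_eq_zero]
        apply mul_ne_zero hz
        rw [Ne, map_eq_zero, ← norm_eq_zero, hG.norm_om]
        exact one_ne_zero
      exact ContinuousAt.comp (g := Hf) (f := fun z => σ (z * conj (om j))) (continuousAt_Hf h1)
        (σc.comp (continuous_mul_const _)).continuousAt
    · apply tendsto_finsetProd
      intro k _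
      exact continuousAt_factor (om k) z hz
  Hp := by
    have hp := norm_br hG j t
    have hb : br om j t * conj (om j) = bp t := by
      rw [br, mul_right_comm, mul_conj_one (hG.norm_om j), one_mul]
    simp only [az_unit hp, bz_unit hp]
    apply mul_ne_zero
    · apply mul_ne_zero
      · rw [Ne, map_eq_zero, map_eq_zero, ← norm_eq_zero, hG.norm_om]
        exact one_ne_zero
      · rw [hb, hbp, Hf_bplus]
        intro h
        have := congrArg Complex.re h
        simp at this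
    · rw [Finset.prod_ne_zero_iff]
      intro k hk h
      have h1 : ‖br om j t * conj (om k)‖ = 1 := by
        rw [norm_mul, hp, RCLike.norm_conj, hG.norm_om, mul_one]
      obtain ⟨u, hu⟩ := V_zero h1 h
      have h2 : br om j t = br om k u := by
        calc br om j t = br om j t * (om k * conj (om k)) := by
              rw [mul_conj_one (hG.norm_om k), mul_one]
          _ = om k * (br om j t * conj (om k)) := by ring
          _ = br om k u := by rw [hu, br]
      exact Finset.ne_of_mem_erase hk (hG.inj _ _ _ _ h2).1.symm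
  eq := by
    intro z hz
    rw [DD, ← Finset.mul_prod_erase Finset.univ _ (Finset.mem_univ j)]
    have h1 : V (bz z * conj (om j)) (az 1 z) =
        σ (z - br om j t) * (σ (conj (om j)) * Hf (σ (z * conj (om j)))) := by
      rw [factor _ _ (hG.norm_om j), ← hvz, ← Hf_mul]
      have h2 : σ (z * conj (om j)) - bplus = σ (z - br om j t) * σ (conj (om j)) := by
        rw [← hbp, ← map_sub, ← map_mul]
        congr 1
        rw [br, sub_mul, mul_right_comm, mul_conj_one (hG.norm_om j), one_mul]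
      rw [h2, mul_assoc]
    rw [h1]
    ring
  np := norm_br hG j t

end CONEM

open CONEM in
theorem specCONE : SpecCONE := by
  intro m om hG hR hC s hs
  have hw : wt s = 0 := hs
  have h1 : DD om (bt s) (at' s) = 0 := by
    rw [← wt_sq, hw, zero_pow (by norm_num)]
  obtain ⟨ha, j, t, hb⟩ := (hC.zero _ _ (norm_bt s) (norm_at s)).1 h1
  cases t with
  | false =>
    exact coneAt (dat hG j false (starRingEnd ℂ) Complex.continuous_conj Complex.conj_conj
      vz_conj (by show conj (conj bplus) = bplus; exact Complex.conj_conj _)) hR s ha hb hw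
  | true =>
    exact coneAt (dat hG j true (RingHom.id ℂ) continuous_id (fun _ => rfl) (fun _ => rfl) rfl)
      hR s ha hb hw

end Pool.Agent.Lib.MP_ed6522_an.Tri
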