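import Pool.Agent.Lib.MP_ed6522_an.Tri.Spec

/-!
# CON: the example is compact and connected
-/

set_option autoImplicit false

open Set Topology Filter Complex
open scoped Real ComplexConjugate

namespace Pool.Agent.Lib.MP_ed6522_an.Tri

namespace CONM

variable {m : ℕ} {om : Fin m → ℂ}

theorem continuous_V {Z : Type*} [TopologicalSpace Z] {f g : Z → ℂ} (hf : Continuous f)
    (hg : Continuous g) : Continuous (fun z => V (f z) (g z)) := by
  unfold V
  exact ((Complex.continuous_ofReal.comp (Complex.continuous_re.comp hf)).add continuous_const).sub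
    (Complex.continuous_conj.comp hg)

theorem continuous_DD : Continuous (fun q : ℂ × ℂ => DD om q.1 q.2) := by
  unfold DD
  apply continuous_finsetProd
  intro j _
  exact continuous_V (continuous_fst.mul continuous_const) continuous_snd

theorem norm_V_le {b a : ℂ} (hb : ‖b‖ = 1) (ha : ‖a‖ = 1) : ‖V b a‖ ≤ 3 := by
  unfold V
  have h1 : ‖(b.re : ℂ)‖ ≤ 1 := by
    rw [Complex.norm_real, ← hb]
    exact Complex.abs_re_le_norm _
  have h2 : ‖(2 / 5 : ℂ)‖ = 2 / 5 := by
    rw [norm_div]; norm_num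
  have h3 : ‖conj a‖ = 1 := by rw [Complex.norm_conj, ha]
  calc ‖(b.re : ℂ) + 2 / 5 - conj a‖ ≤ ‖(b.re : ℂ) + 2 / 5‖ + ‖conj a‖ := norm_sub_le _ _
    _ ≤ ‖(b.re : ℂ)‖ + ‖(2 / 5 : ℂ)‖ + ‖conj a‖ := by gcongr; exact norm_add_le _ _
    _ ≤ 3 := by rw [h2, h3]; linarith

theorem norm_DD_le (hG : Good om) {b a : ℂ} (hb : ‖b‖ = 1) (ha : ‖a‖ = 1) : ‖DD om b a‖ ≤ 3 ^ m := by
  unfold DD
  rw [norm_prod]
  calc ∏ j, ‖V (b * conj (om j)) a‖ ≤ ∏ _j : Fin m, (3 : ℝ) := by
        apply Finset.prod_le_prod (fun j _ => norm_nonneg _)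
        intro j _
        apply norm_V_le _ ha
        rw [norm_mul, Complex.norm_conj, hb, hG.norm_om j, one_mul]
    _ = 3 ^ m := by simp

theorem closed_XT (om : Fin m → ℂ) : IsClosed (XTset om) := by
  unfold XTset
  refine IsClosed.inter (isClosed_eq (by fun_prop) continuous_const)
    (IsClosed.inter (isClosed_eq (by fun_prop) continuous_const) ?_)
  have h : Continuous (fun P : ℂ × ℂ × ℂ => DD om P.1 P.2.1) :=
    (continuous_DD (om := om)).comp (continuous_fst.prodMk (continuous_fst.comp continuous_snd))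
  exact isClosed_eq (by fun_prop) h

theorem compact_XT (hG : Good om) : IsCompact (XTset om) := by
  apply Metric.isCompact_of_isClosed_isBounded (closed_XT om)
  apply Metric.isBounded_closedBall.subset (s := XTset om)
    (t := Metric.closedBall (0 : ℂ × ℂ × ℂ) (3 ^ m + 1))
  rintro ⟨b, a, w⟩ ⟨hb, ha, hw⟩
  simp only at hb ha hw
  have h1 : (0 : ℝ) ≤ 3 ^ m := by positivity
  have h2 : ‖w‖ ≤ 3 ^ m + 1 := by
    by_contra hcon
    push Not at hcon
    have h3 : ‖w‖ ^ 2 ≤ 3 ^ m := by
      rw [← norm_pow, hw]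
      exact norm_DD_le hG hb ha
    nlinarith
  rw [mem_closedBall_zero_iff, Prod.norm_def, max_le_iff, Prod.norm_def, max_le_iff]
  refine ⟨?_, ?_, h2⟩
  · show ‖b‖ ≤ _
    rw [hb]; linarith
  · show ‖a‖ ≤ _
    rw [ha]; linarith

theorem continuous_bt : Continuous (bt : XT om → ℂ) := by
  unfold bt; fun_prop

theorem continuous_at' : Continuous (at' : XT om → ℂ) := by
  unfold at'; fun_prop

/-- The projection to the torus. -/
def proj (P : XT om) : ℂ × ℂ := (bt P, at' P)

theorem continuous_proj : Continuous (proj : XT om → ℂ × ℂ) :=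
  continuous_bt.prodMk continuous_at'

theorem proj_mem (P : XT om) : proj P ∈ torus := by
  refine ⟨?_, ?_⟩
  · exact mem_sphere_zero_iff_norm.2 P.2.1
  · exact mem_sphere_zero_iff_norm.2 P.2.2.1

theorem wt_sq (P : XT om) : wt P ^ 2 = DD om (bt P) (at' P) := P.2.2.2

/-- The projection is open onto the torus. -/
theorem proj_open (P : XT om) {O : Set (XT om)} (hO : O ∈ 𝓝 P) :
    ∀ᶠ q in 𝓝 (proj P), q ∈ torus → ∃ Q ∈ O, proj Q = q := by
  rw [nhds_subtype_eq_comap, mem_comap] at hO
  obtain ⟨W, hW, hWO⟩ := hO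
  obtain ⟨⟨b, a, w⟩, hP⟩ := P
  change W ∈ 𝓝 (b, a, w) at hW
  rw [nhds_prod_eq] at hW
  obtain ⟨W₁, hW₁, W₂₃, hW₂₃, hsub⟩ := mem_prod_iff.1 hW
  rw [nhds_prod_eq] at hW₂₃
  obtain ⟨W₂, hW₂, W₃, hW₃, hsub'⟩ := mem_prod_iff.1 hW₂₃
  have hpow : (fun w : ℂ => w ^ 2) '' W₃ ∈ 𝓝 (w ^ 2) :=
    (isOpenMap_pow_complex (n := 2) (by norm_num)).image_mem_nhds hW₃
  have hw : w ^ 2 = DD om b a := hP.2.2
  have h3 : ∀ᶠ q : ℂ × ℂ in 𝓝 (b, a), DD om q.1 q.2 ∈ (fun w : ℂ => w ^ 2) '' W₃ := by
    apply (continuous_DD (om := om)).continuousAt.eventually_mem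
    show _ ∈ 𝓝 (DD om b a)
    rw [← hw]
    exact hpow
  have h4 : ∀ᶠ q : ℂ × ℂ in 𝓝 (b, a), q.1 ∈ W₁ :=
    continuous_fst.continuousAt.eventually_mem (f := Prod.fst) (x := ((b, a) : ℂ × ℂ)) hW₁
  have h5 : ∀ᶠ q : ℂ × ℂ in 𝓝 (b, a), q.2 ∈ W₂ :=
    continuous_snd.continuousAt.eventually_mem (f := Prod.snd) (x := ((b, a) : ℂ × ℂ)) hW₂
  have h6 : (∀ᶠ q in 𝓝 ((b, a) : ℂ × ℂ), q ∈ torus → ∃ Q ∈ O, proj Q = q) := by
    filter_upwards [h3, h4, h5] with q hq3 hq4 hq5 hqT
    obtain ⟨w', hw', hwq⟩ := hq3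
    have hmem : (q.1, q.2, w') ∈ XTset om :=
      ⟨by simpa using hqT.1, by simpa using hqT.2, hwq⟩
    refine ⟨⟨(q.1, q.2, w'), hmem⟩, hWO ?_, rfl⟩
    exact hsub ⟨hq4, hsub' ⟨hq5, hw'⟩⟩
  exact h6

/-- The projection as a map to the torus. -/
def projT (P : XT om) : torus := ⟨proj P, proj_mem P⟩

theorem continuous_projT : Continuous (projT : XT om → torus) :=
  continuous_proj.subtype_mk _

theorem isOpenMap_projT : IsOpenMap (projT : XT om → torus) := by
  rw [isOpenMap_iff_nhds_le]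
  intro P s hs
  have h1 := proj_open P (mem_map.1 hs)
  have h2 : Tendsto (Subtype.val : torus → ℂ × ℂ) (𝓝 (projT P)) (𝓝 (proj P)) :=
    continuous_subtype_val.tendsto _
  filter_upwards [h2.eventually h1] with q hq
  obtain ⟨Q, hQ, hQq⟩ := hq q.2
  have h3 : projT Q = q := Subtype.ext hQq
  have h4 : projT Q ∈ s := hQ
  rwa [h3] at h4

/-- Images of clopen nonempty sets are the whole torus. -/
theorem projT_clopen (hG : Good om) {A : Set (XT om)} (hA : IsClopen A) (hne : A.Nonempty) :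
    projT '' A = univ := by
  have : CompactSpace (XT om) := isCompact_iff_compactSpace.1 (compact_XT hG)
  have hpre : PreconnectedSpace torus := Subtype.preconnectedSpace isPreconnected_torus
  have hcl : IsClosed (projT '' A) := (hA.1.isCompact.image continuous_projT).isClosed
  have hop : IsOpen (projT '' A) := isOpenMap_projT A hA.2
  rcases isClopen_iff.1 ⟨hcl, hop⟩ with h | h
  · exact absurd (image_eq_empty.1 h) hne.ne_empty
  · exact h

theorem norm_bp (s : Bool) : ‖bp s‖ = 1 := by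
  cases s
  · show ‖conj bplus‖ = 1
    rw [Complex.norm_conj]
    exact norm_bplus
  · exact norm_bplus

theorem V_bp_true : V (bp true) 1 = 0 := by
  show ((bplus.re : ℝ) : ℂ) + 2 / 5 - conj 1 = 0
  have : bplus.re = 3 / 5 := rfl
  rw [this, map_one]
  push_cast
  norm_num

theorem DD_br (hG : Good om) (j : Fin m) : DD om (br om j true) 1 = 0 := by
  unfold DD
  apply Finset.prod_eq_zero (Finset.mem_univ j)
  have h3 : om j * conj (om j) = 1 := by
    rw [Complex.mul_conj, Complex.normSq_eq_norm_sq, hG.norm_om j]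
    norm_num
  have : br om j true * conj (om j) = bp true := by
    unfold br
    linear_combination (bp true) * h3
  rw [this]
  exact V_bp_true

/-- The cone point over `br j true`. -/
noncomputable def base (hG : Good om) (j : Fin m) : XT om :=
  ⟨(br om j true, 1, 0), by
    refine ⟨?_, norm_one, ?_⟩
    · show ‖om j * bp true‖ = 1
      rw [norm_mul, hG.norm_om j, norm_bp, one_mul]
    · show (0 : ℂ) ^ 2 = DD om (br om j true) 1
      rw [DD_br hG j]
      norm_num⟩

theorem connected_XT (hG : Good om) (j : Fin m) : ConnectedSpace (XT om) := by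
  have huniq : ∀ P : XT om, projT P = projT (base hG j) → P = base hG j := by
    intro P hP
    have h1 : proj P = proj (base hG j) := congrArg Subtype.val hP
    have h2 : bt P = br om j true := (Prod.ext_iff.1 h1).1
    have h3 : at' P = 1 := (Prod.ext_iff.1 h1).2
    have h4 : wt P ^ 2 = 0 := by
      rw [wt_sq, h2, h3, DD_br hG j]
    have h5 : wt P = 0 := pow_eq_zero_iff (by norm_num) |>.1 h4
    exact Subtype.ext (Prod.ext h2 (Prod.ext h3 h5))
  have hclopen : ∀ A : Set (XT om), IsClopen A → A.Nonempty → base hG j ∈ A := by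
    intro A hA hne
    have h1 : projT (base hG j) ∈ projT '' A := by
      rw [projT_clopen hG hA hne]; trivial
    obtain ⟨P, hP, hPe⟩ := h1
    rwa [← huniq P hPe]
  have hpre : PreconnectedSpace (XT om) := by
    apply preconnectedSpace_iff_clopen.2
    intro A hA
    by_contra hcon
    push Not at hcon
    have h1 := hclopen A hA hcon.1
    have h2 := hclopen Aᶜ hA.compl (by
      rw [nonempty_compl]; exact hcon.2)
    exact h2 h1
  exact { toPreconnectedSpace := hpre, toNonempty := ⟨base hG j⟩ }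

end CONM

open CONM

theorem specCON : SpecCON := by
  intro m om hG hm
  exact ⟨isCompact_iff_compactSpace.1 (compact_XT hG), connected_XT hG ⟨0, by omega⟩⟩

end Pool.Agent.Lib.MP_ed6522_an.Tri
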