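import Pool.Agent.Lib.MP_ed6522_an.Tri.Spec

/-!
# Assembly: the example as an affine surface of genus `m + 1`
-/

set_option autoImplicit false

open Set Topology Filter Complex
open scoped Real ComplexConjugate

namespace Pool.Agent.Lib.MP_ed6522_an.Tri

namespace FINM

variable {m : ℕ} {om : Fin m → ℂ}

/-- The example as an affine surface. -/
noncomputable def surfT (om : Fin m → ℂ) (hR : RegS om) (hC : CntS om)
    (hcon : CompactSpace (XT om) ∧ ConnectedSpace (XT om))
    (hcone : ∀ s ∈ singT om, ConeAt (atlasT om) (singT om) s 2) : AffSurf :=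
  { carrier := XT om
    topo := inferInstance
    compact := hcon.1
    t2 := inferInstance
    conn := hcon.2
    sing := singT om
    sing_finite := hC.fin
    atlas := atlasT om
    avoid := fun e he x hx => (he x hx).1
    cover := by
      intro x hx
      have hx' : wt x ≠ 0 := hx
      obtain ⟨e, he, -, hsrc, -⟩ := hR.chart x hx'
      refine ⟨e, he, ?_⟩
      rw [hsrc]
      have ha : at' x ≠ 0 := by
        have : ‖at' x‖ = 1 := x.2.2.1
        rw [← norm_pos_iff, this]; exact one_pos
      rw [div_self ha, div_self hx']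
      exact ⟨Complex.one_mem_slitPlane, by simp⟩
    compat := by
      intro e he e' he' x hx hx'
      obtain ⟨-, a, ha, c, hc⟩ := he x hx
      obtain ⟨-, a', ha', c', hc'⟩ := he' x hx'
      refine ⟨a' * a⁻¹, mul_pos ha' (inv_pos.2 ha), c' - a' * (a⁻¹ : ℝ) * c, ?_⟩
      have ha0 : (a : ℂ) ≠ 0 := by exact_mod_cast ha.ne'
      filter_upwards [hc, hc'] with y hy hy'
      rw [hy, hy']
      push_cast
      field_simp
      ring
    maximal := by
      intro e he hcompat x hx
      have hxr : wt x ≠ 0 := he x hx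
      refine ⟨hxr, ?_⟩
      obtain ⟨e₀, he₀, hval, hsrc, -⟩ := hR.chart x hxr
      have ha1 : at' x ≠ 0 := by
        have : ‖at' x‖ = 1 := x.2.2.1
        rw [← norm_pos_iff, this]; exact one_pos
      have hx₀ : x ∈ e₀.source := by
        rw [hsrc, div_self ha1, div_self hxr]
        exact ⟨Complex.one_mem_slitPlane, by simp⟩
      obtain ⟨a, ha, c, hc⟩ := hcompat _ he₀ x hx hx₀
      refine ⟨a⁻¹, inv_pos.2 ha, -((a⁻¹ : ℝ) * c), ?_⟩
      have ha0 : (a : ℂ) ≠ 0 := by exact_mod_cast ha.ne'
      filter_upwards [hc] with y hy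
      rw [hval] at hy
      rw [hy]
      push_cast
      field_simp
      ring
    cone := fun s hs => ⟨2, le_rfl, hcone s hs⟩ }

variable (hR : RegS om) (hC : CntS om)
    (hcon : CompactSpace (XT om) ∧ ConnectedSpace (XT om))
    (hcone : ∀ s ∈ singT om, ConeAt (atlasT om) (singT om) s 2)

theorem surfT_genus : HasGenus (surfT om hR hC hcon hcone) (m + 1) := by
  refine ⟨fun _ => 2, fun s hs => ⟨le_rfl, hcone s hs⟩, ?_⟩
  have h1 : ((surfT om hR hC hcon hcone).sing_finite.toFinset).card = 2 * m := by
    have h2 := Set.ncard_eq_toFinset_card (singT om) hC.fin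
    rw [hC.card] at h2
    exact h2.symm
  rw [Finset.sum_const, h1]
  push_cast
  rw [nsmul_eq_mul]
  push_cast
  ring

/-- A chain in the example as a chain in the affine surface. -/
theorem chain_of {u : ℂ} (h : Nonempty (ChainT om u)) :
    Nonempty (Chain (surfT om hR hC hcon hcone) u) := by
  obtain ⟨c⟩ := h
  exact ⟨{
    N := c.N
    e := c.e
    x := c.x
    r := c.r
    a := c.a
    c := c.c
    N_pos := c.N_pos
    e_N := c.e_N
    x_N := c.x_N
    mem_atlas := c.mem_atlas
    r_pos := c.r_pos
    mem_left := c.mem_left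
    mem_right := c.mem_right
    step := c.step
    seg := c.seg
    a_pos := c.a_pos
    trans := c.trans
    hol := c.hol }⟩

theorem surfT_allDirections
    (hchn : ∀ u : ℂ, ‖u‖ = 1 → Nonempty (ChainT om u) ∨ Nonempty (ChainT om (-u))) :
    AllDirections (surfT om hR hC hcon hcone) := by
  intro u hu
  rcases hchn u hu with h | h
  · exact Or.inl (chain_of hR hC hcon hcone h)
  · exact Or.inr (chain_of hR hC hcon hcone h)

end FINM

open FINM in
theorem specFIN (hREG : SpecREG) (hNHP : SpecNHP) (hOM : SpecOM) (hCON : SpecCON)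
    (hCNT : SpecCNT) (hCONE : SpecCONE) (hCHN : SpecCHN) : SpecFIN := by
  intro g hg
  obtain ⟨m, rfl⟩ : ∃ m, g = m + 1 := ⟨g - 1, by omega⟩
  have hm : 2 ≤ m := by omega
  obtain ⟨om, hG⟩ := hOM m hm
  have hR : RegS om := hREG om
  have hC : CntS om := hCNT om hG
  have hcon := hCON om hG (by omega)
  have hcone := hCONE om hG hR hC
  have hall : AllDirections (surfT om hR hC hcon hcone) :=
    surfT_allDirections hR hC hcon hcone (hCHN om hG hR hC)
  refine ⟨⟨surfT om hR hC hcon hcone, surfT_genus hR hC hcon hcone⟩, ?_, goodSet (m + 1),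
    isOpen_goodSet _, ⟨_, rfl, hall⟩, fun X hX => goodSet_spec hX⟩
  rintro ⟨v, hv, F, hF⟩
  exact hNHP om hG hR ⟨v, hv, F, fun z hz => hF z hz⟩

end Pool.Agent.Lib.MP_ed6522_an.Tri
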