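import Pool.Agent.Lib.MP_ed6522_an.Tri.Spec

/-!
# The example has no affinely immersed half-plane
-/

set_option autoImplicit false

open Set Topology Filter Complex
open scoped Real ComplexConjugate

namespace Pool.Agent.Lib.MP_ed6522_an.Tri

namespace NHPM

variable {m : ℕ} {om : Fin m → ℂ}

theorem norm_bt (P : XT om) : ‖bt P‖ = 1 := P.2.1

theorem norm_at (P : XT om) : ‖at' P‖ = 1 := P.2.2.1

theorem wt_sq (P : XT om) : wt P ^ 2 = DD om (bt P) (at' P) := P.2.2.2

theorem at_ne (P : XT om) : at' P ≠ 0 := by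
  rw [← norm_pos_iff, norm_at]; exact one_pos

/-- The polar representation of `F` at `y` with apex `q` and phase `al`. -/
def Rep (F : ℂ → XT om) (q al y : ℂ) : Prop :=
  y ≠ q ∧ bt (F y) = (y - q) / (‖y - q‖ : ℂ) ∧
    at' (F y) = al * exp (((4 / 5 * Real.log ‖y - q‖ : ℝ) : ℂ) * I)

theorem rep_of {F : ℂ → XT om} {z y c : ℂ} {a : ℝ} (ha : 0 < a)
    (h : zt (at' (F z)) (F y) = a * y + c) :
    Rep F (-c / a) (at' (F z) * exp (((4 / 5 * Real.log a : ℝ) : ℂ) * I)) y := by
  have ha0 : (a : ℂ) ≠ 0 := by exact_mod_cast ha.ne'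
  set q : ℂ := -c / a with hq
  have e1 : (a : ℂ) * y + c = a * (y - q) := by
    rw [hq]; field_simp; ring
  rw [e1, zt] at h
  set θ : ℝ := arg (at' (F y) / at' (F z)) with hθ
  have hn : Real.exp (5 / 4 * θ) = a * ‖y - q‖ := by
    have h1 := congrArg norm h
    rw [norm_mul, norm_mul, norm_bt, mul_one, Complex.norm_real, Complex.norm_real,
      Real.norm_of_nonneg (Real.exp_pos _).le, Real.norm_of_nonneg ha.le] at h1
    exact h1
  have hpos : 0 < ‖y - q‖ := by
    have h1 := Real.exp_pos (5 / 4 * θ)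
    rw [hn] at h1
    exact pos_of_mul_pos_right h1 ha.le
  have hne : y ≠ q := by
    intro h1
    rw [h1, sub_self, norm_zero] at hpos
    exact lt_irrefl _ hpos
  have hnc : ((‖y - q‖ : ℝ) : ℂ) ≠ 0 := by exact_mod_cast hpos.ne'
  refine ⟨hne, ?_, ?_⟩
  · rw [hn] at h
    push_cast at h
    have h2 : ((‖y - q‖ : ℝ) : ℂ) * bt (F y) = y - q := by
      apply mul_left_cancel₀ ha0
      rw [← h]; ring
    rw [eq_div_iff hnc, mul_comm]
    exact h2
  · have hlog : θ = 4 / 5 * Real.log a + 4 / 5 * Real.log ‖y - q‖ := by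
      have h1 := congrArg Real.log hn
      rw [Real.log_exp, Real.log_mul ha.ne' hpos.ne'] at h1
      linarith
    have h3 : at' (F y) = at' (F z) * exp ((θ : ℂ) * I) := by
      have h4 : ‖at' (F y) / at' (F z)‖ = 1 := by rw [norm_div, norm_at, norm_at, div_one]
      have h5 := Complex.norm_mul_exp_arg_mul_I (at' (F y) / at' (F z))
      rw [h4, Complex.ofReal_one, one_mul] at h5
      rw [hθ, h5, mul_div_cancel₀ _ (at_ne (F z))]
    rw [h3, hlog, mul_assoc, ← Complex.exp_add]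
    congr 2
    push_cast; ring

theorem rep_local (hR : RegS om) {v : ℂ} {F : ℂ → XT om}
    (hF : ∀ z : ℂ, 0 < (z * conj v).re → ContinuousAt F z ∧ wt (F z) ≠ 0 ∧
      ∀ e ∈ atlasT om, F z ∈ e.source → ∃ a : ℝ, 0 < a ∧ ∃ c : ℂ, ∀ᶠ y in 𝓝 z, e (F y) = a * y + c)
    {z : ℂ} (hz : 0 < (z * conj v).re) : ∃ q al : ℂ, ∀ᶠ y in 𝓝 z, Rep F q al y := by
  obtain ⟨-, hw, h⟩ := hF z hz
  obtain ⟨e, he, hval, hsrc, -⟩ := hR.chart (F z) hw
  have hmem : F z ∈ e.source := by
    rw [hsrc, div_self (at_ne _), div_self hw]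
    exact ⟨Complex.one_mem_slitPlane, by simp⟩
  obtain ⟨a, ha, c, hc⟩ := h e he hmem
  refine ⟨-c / a, at' (F z) * exp (((4 / 5 * Real.log a : ℝ) : ℂ) * I), ?_⟩
  filter_upwards [hc] with y hy
  rw [hval] at hy
  exact rep_of ha hy

theorem rep_im {F : ℂ → XT om} {q al q' al' y : ℂ} (h : Rep F q al y) (h' : Rep F q' al' y) :
    ((q' - q) * conj (y - q)).im = 0 := by
  obtain ⟨hne, h1, -⟩ := h
  obtain ⟨hne', h1', -⟩ := h'
  set A := y - q with hA
  set B := y - q' with hB
  have hA0 : A ≠ 0 := sub_ne_zero.2 hne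
  have hB0 : B ≠ 0 := sub_ne_zero.2 hne'
  have hAn : ((‖A‖ : ℝ) : ℂ) ≠ 0 := by exact_mod_cast (norm_pos_iff.2 hA0).ne'
  have hBn : ((‖B‖ : ℝ) : ℂ) ≠ 0 := by exact_mod_cast (norm_pos_iff.2 hB0).ne'
  have h2 : A / (‖A‖ : ℂ) = B / (‖B‖ : ℂ) := h1.symm.trans h1'
  rw [div_eq_div_iff hAn hBn] at h2
  have h3 : B * conj A = ((‖A‖ * ‖B‖ : ℝ) : ℂ) := by
    apply mul_right_cancel₀ hAn
    have h4 : A * conj A = ((‖A‖ : ℝ) : ℂ) ^ 2 := by
      rw [Complex.mul_conj, Complex.normSq_eq_norm_sq]; push_cast; ring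
    calc B * conj A * (‖A‖ : ℂ) = (B * (‖A‖ : ℂ)) * conj A := by ring
      _ = (A * (‖B‖ : ℂ)) * conj A := by rw [h2]
      _ = (A * conj A) * (‖B‖ : ℂ) := by ring
      _ = ((‖A‖ * ‖B‖ : ℝ) : ℂ) * (‖A‖ : ℂ) := by rw [h4]; push_cast; ring
  have h5 : q' - q = A - B := by rw [hA, hB]; ring
  rw [h5, sub_mul, h3, Complex.mul_conj, Complex.sub_im, Complex.ofReal_im, Complex.ofReal_im, sub_zero]

theorem rep_unique {F : ℂ → XT om} {q al q' al' y₁ : ℂ} (h : ∀ᶠ y in 𝓝 y₁, Rep F q al y)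
    (h' : ∀ᶠ y in 𝓝 y₁, Rep F q' al' y) : q = q' ∧ al = al' := by
  have hq : q = q' := by
    by_contra hne
    have hD : q' - q ≠ 0 := sub_ne_zero.2 (Ne.symm hne)
    have h0 : ∀ᶠ y in 𝓝 y₁, ((q' - q) * conj (y - q)).im = 0 := by
      filter_upwards [h, h'] with y hy hy'
      exact rep_im hy hy'
    have hcont : Tendsto (fun t : ℝ => y₁ + t * ((q' - q) * I)) (𝓝 0) (𝓝 y₁) := by
      have : Continuous (fun t : ℝ => y₁ + t * ((q' - q) * I)) := by fun_prop
      have h2 := this.tendsto 0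
      simpa using h2
    have h1 := hcont.eventually h0
    obtain ⟨ε, hε, hball⟩ := Metric.eventually_nhds_iff.1 h1
    have e1 := h0.self_of_nhds
    have e2 := hball (y := ε / 2) (by
      rw [dist_zero_right, Real.norm_of_nonneg (by linarith)]; linarith)
    have e3 : ((q' - q) * conj (y₁ + ((ε / 2 : ℝ) : ℂ) * ((q' - q) * I) - q)).im =
        ((q' - q) * conj (y₁ - q)).im - ε / 2 * Complex.normSq (q' - q) := by
      have e4 : (q' - q) * conj (y₁ + ((ε / 2 : ℝ) : ℂ) * ((q' - q) * I) - q) =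
          (q' - q) * conj (y₁ - q) - ((ε / 2 * Complex.normSq (q' - q) : ℝ) : ℂ) * I := by
        have e5 := Complex.mul_conj (q' - q)
        rw [map_sub, map_add, map_mul, map_mul, Complex.conj_ofReal, Complex.conj_I, map_sub (starRingEnd ℂ) y₁ q]
        push_cast
        linear_combination (-(ε / 2 : ℂ) * I) * e5
      rw [e4, Complex.sub_im, Complex.mul_im]
      simp
    rw [e3, e1] at e2
    have e6 : 0 < Complex.normSq (q' - q) := Complex.normSq_pos.2 hD
    nlinarith
  refine ⟨hq, ?_⟩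
  subst hq
  have g := h.self_of_nhds
  have g' := h'.self_of_nhds
  exact mul_right_cancel₀ (Complex.exp_ne_zero _) (g.2.2.symm.trans g'.2.2)

theorem convex_H (v : ℂ) : Convex ℝ {z : ℂ | 0 < (z * conj v).re} := by
  intro x hx y hy a b ha hb hab
  simp only [mem_ofPred_eq] at hx hy ⊢
  have : ((a • x + b • y) * conj v).re = a * (x * conj v).re + b * (y * conj v).re := by
    rw [Complex.real_smul, Complex.real_smul, add_mul, mul_assoc, mul_assoc, Complex.add_re,
      Complex.re_ofReal_mul, Complex.re_ofReal_mul]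
  rw [this]
  rcases ha.eq_or_lt with h | h
  · have hb1 : b = 1 := by linarith
    rw [← h, hb1]; linarith
  · have := mul_pos h hx
    have := mul_nonneg hb hy.le
    linarith

theorem norm_bp' (s : Bool) : ‖bp s‖ = 1 := by
  cases s
  · simp only [bp, Bool.false_eq_true, if_false, RCLike.norm_conj]; exact norm_bp
  · simp only [bp, if_true]; exact norm_bp

theorem bp_re (s : Bool) : (bp s).re = 3 / 5 := by
  cases s
  · simp only [bp, Bool.false_eq_true, if_false, Complex.conj_re]; exact bplus_re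
  · simp only [bp, if_true]; exact bplus_re

end NHPM

open NHPM in
theorem specNHP : SpecNHP := by
  intro m om hG hR
  rintro ⟨v, hv, F, hF⟩
  set H : Set ℂ := {z : ℂ | 0 < (z * conj v).re} with hH
  have hvH : v ∈ H := by
    rw [hH, mem_ofPred_eq, Complex.mul_conj, Complex.normSq_eq_norm_sq, hv]
    norm_num
  obtain ⟨q, al, hq⟩ := rep_local hR hF hvH
  set u : Set ℂ := {z | ∀ᶠ y in 𝓝 z, Rep F q al y} with hu
  have hopen : IsOpen u := by
    rw [isOpen_iff_mem_nhds]
    intro z hz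
    exact eventually_eventually_nhds.2 hz
  have hsub : H ⊆ u := by
    apply (convex_H v).isPreconnected.subset_of_closure_inter_subset hopen ⟨v, hvH, hq⟩
    rintro z ⟨hzc, hzH⟩
    obtain ⟨q', al', hq'⟩ := rep_local hR hF hzH
    obtain ⟨y₁, hy₁, hy₁u⟩ := mem_closure_iff_nhds.1 hzc _ (eventually_eventually_nhds.2 hq')
    obtain ⟨rfl, rfl⟩ := rep_unique hy₁u hy₁
    exact hq'
  have hrep : ∀ y ∈ H, Rep F q al y := fun y hy => (hsub hy).self_of_nhds
  have hal : ‖al‖ = 1 := by
    have h1 := congrArg norm (hrep v hvH).2.2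
    rw [norm_at, norm_mul, Complex.norm_exp_ofReal_mul_I, mul_one] at h1
    exact h1.symm
  obtain ⟨j, s, hjs⟩ := hG.cov v hv
  set β : ℂ := br om j s with hβ
  have hβn : ‖β‖ = 1 := by rw [hβ, br, norm_mul, hG.norm_om, norm_bp', one_mul]
  -- a large `t`
  obtain ⟨k, hk⟩ : ∃ k : ℕ, 0 < (q * conj v).re +
      Real.exp (5 / 4 * (2 * π * k - arg al)) * (β * conj v).re := by
    have h1 : Tendsto (fun k : ℕ => (q * conj v).re +
        Real.exp (5 / 4 * (2 * π * k - arg al)) * (β * conj v).re) atTop atTop := by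
      apply tendsto_atTop_add_const_left
      apply Tendsto.atTop_mul_const hjs
      apply Real.tendsto_exp_atTop.comp
      apply Tendsto.const_mul_atTop (by norm_num)
      apply tendsto_atTop_add_const_right
      apply Tendsto.const_mul_atTop (by positivity)
      exact tendsto_natCast_atTop_atTop
    exact (h1.eventually_gt_atTop 0).exists
  set t : ℝ := Real.exp (5 / 4 * (2 * π * k - arg al)) with ht
  have ht0 : 0 < t := Real.exp_pos _
  have hyH : q + t * β ∈ H := by
    rw [hH, mem_ofPred_eq, add_mul, mul_assoc, Complex.add_re, Complex.re_ofReal_mul]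
    exact hk
  obtain ⟨-, hb, ha⟩ := hrep _ hyH
  have htn : ‖q + t * β - q‖ = t := by
    rw [add_sub_cancel_left, norm_mul, hβn, mul_one, Complex.norm_real, Real.norm_of_nonneg ht0.le]
  have hb' : bt (F (q + t * β)) = β := by
    rw [hb, htn, add_sub_cancel_left]
    have : (t : ℂ) ≠ 0 := by exact_mod_cast ht0.ne'
    field_simp
  have ha' : at' (F (q + t * β)) = 1 := by
    rw [ha, htn, ht, Real.log_exp]
    have h2 := Complex.norm_mul_exp_arg_mul_I al
    rw [hal, Complex.ofReal_one, one_mul] at h2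
    have h3 : (((4 / 5 * (5 / 4 * (2 * π * k - arg al)) : ℝ)) : ℂ) * I =
        -((arg al : ℂ) * I) + k * (2 * π * I) := by
      push_cast; ring
    rw [h3, Complex.exp_add, Complex.exp_nat_mul, Complex.exp_two_pi_mul_I, one_pow, mul_one]
    nth_rewrite 1 [← h2]
    rw [← Complex.exp_add, add_neg_cancel, Complex.exp_zero]
  have hw := wt_sq (F (q + t * β))
  rw [hb', ha'] at hw
  have hz : DD om β 1 = 0 := by
    rw [DD]
    apply Finset.prod_eq_zero (Finset.mem_univ j)
    have h4 : β * conj (om j) = bp s := by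
      have h5 : om j * conj (om j) = 1 := by
        rw [Complex.mul_conj, Complex.normSq_eq_norm_sq, hG.norm_om]; norm_num
      rw [hβ, br]
      calc om j * bp s * conj (om j) = (om j * conj (om j)) * bp s := by ring
        _ = bp s := by rw [h5, one_mul]
    rw [V, h4, bp_re, map_one]
    push_cast; norm_num
  rw [hz] at hw
  exact (hF _ hyH).2.1 (pow_eq_zero_iff (two_ne_zero) |>.1 hw)

end Pool.Agent.Lib.MP_ed6522_an.Tri
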