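import Pool.Agent.Lib.MP_ed6522_an.Tri.Spec

/-!
# Existence of the rotations (module OM)
-/

set_option autoImplicit false

open Set Topology Filter Complex
open scoped Real ComplexConjugate

namespace Pool.Agent.Lib.MP_ed6522_an.Tri

namespace OMM

theorem bp_re (s : Bool) : (bp s).re = 3 / 5 := by
  cases s <;> simp [bp, bplus_re]

theorem bp_im (s : Bool) : (bp s).im = if s then 4 / 5 else -(4 / 5) := by
  cases s <;> simp [bp, bplus_im]

theorem bp_ne_zero (s : Bool) : bp s ≠ 0 := by
  intro h
  have := congrArg Complex.re h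
  rw [bp_re, Complex.zero_re] at this
  norm_num at this

theorem bp_inj {s t : Bool} (h : bp s = bp t) : s = t := by
  have h1 := congrArg Complex.im h
  rw [bp_im, bp_im] at h1
  cases s <;> cases t <;> simp at h1 ⊢ <;> norm_num at h1

theorem bp_ne_neg (s t : Bool) : bp s ≠ -bp t := by
  intro h
  have h1 := congrArg Complex.re h
  rw [Complex.neg_re, bp_re, bp_re] at h1
  norm_num at h1

/-- the base of the induction -/
theorem base : ∃ om : Fin 2 → ℂ, Good om := by
  have e0 : ∀ s, br (![1, I] : Fin 2 → ℂ) 0 s = bp s := fun s => by simp [br]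
  have e1 : ∀ s, br (![1, I] : Fin 2 → ℂ) 1 s = I * bp s := fun s => by simp [br]
  have r0 : ∀ s, (br (![1, I] : Fin 2 → ℂ) 0 s).re = 3 / 5 := fun s => by rw [e0, bp_re]
  have i0 : ∀ s, (br (![1, I] : Fin 2 → ℂ) 0 s).im = if s then 4 / 5 else -(4 / 5) := fun s => by
    rw [e0, bp_im]
  have r1 : ∀ s, (br (![1, I] : Fin 2 → ℂ) 1 s).re = if s then -(4 / 5) else 4 / 5 := fun s => by
    rw [e1, Complex.I_mul_re, bp_im]
    cases s <;> simp
  have i1 : ∀ s, (br (![1, I] : Fin 2 → ℂ) 1 s).im = 3 / 5 := fun s => by
    rw [e1, Complex.I_mul_im, bp_re]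
  refine ⟨![1, I], ?_, ?_, ?_, ?_⟩
  · intro j
    fin_cases j
    · simp
    · simp
  · intro j k s t h
    have hr := congrArg Complex.re h
    have hi := congrArg Complex.im h
    fin_cases j
    · fin_cases k
      · simp only [Fin.zero_eta] at hr hi
        rw [i0, i0] at hi
        refine ⟨rfl, ?_⟩
        cases s <;> cases t <;> simp at hi ⊢ <;> norm_num at hi
      · exfalso
        simp only [Fin.zero_eta, Fin.mk_one] at hr hi
        rw [r0, r1] at hr
        cases t <;> norm_num at hr
    · fin_cases k
      · exfalso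
        simp only [Fin.zero_eta, Fin.mk_one] at hr hi
        rw [r0, r1] at hr
        cases s <;> norm_num at hr
      · simp only [Fin.mk_one] at hr hi
        rw [r1, r1] at hr
        refine ⟨rfl, ?_⟩
        cases s <;> cases t <;> simp at hr ⊢ <;> norm_num at hr
  · intro j k s t h
    have hr := congrArg Complex.re h
    have hi := congrArg Complex.im h
    rw [Complex.neg_re] at hr
    rw [Complex.neg_im] at hi
    fin_cases j
    · fin_cases k
      · simp only [Fin.zero_eta] at hr hi
        rw [r0, r0] at hr
        norm_num at hr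
      · simp only [Fin.zero_eta, Fin.mk_one] at hr hi
        rw [r0, r1] at hr
        cases t <;> norm_num at hr
    · fin_cases k
      · simp only [Fin.zero_eta, Fin.mk_one] at hr hi
        rw [r0, r1] at hr
        cases s <;> norm_num at hr
      · simp only [Fin.mk_one] at hr hi
        rw [i1, i1] at hi
        norm_num at hi
  · intro v hv
    have hv2 : v.re ^ 2 + v.im ^ 2 = 1 := by
      have h1 : Complex.normSq v = 1 := by
        rw [Complex.normSq_eq_norm_sq, hv, one_pow]
      rw [Complex.normSq_apply] at h1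
      nlinarith
    have hre : ∀ z : ℂ, (z * conj v).re = z.re * v.re + z.im * v.im := fun z => by
      rw [Complex.mul_re, Complex.conj_re, Complex.conj_im]
      ring
    by_contra hcon
    push Not at hcon
    have h1 := hcon 0 true
    have h2 := hcon 0 false
    have h3 := hcon 1 true
    have h4 := hcon 1 false
    rw [hre, r0, i0] at h1 h2
    rw [hre, r1, i1] at h3 h4
    simp only [if_true, Bool.false_eq_true, if_false] at h1 h2 h3 h4
    -- `3 x + 4 y ≤ 0`, `3 x - 4 y ≤ 0`, `-4 x + 3 y ≤ 0`, `4 x + 3 y ≤ 0`
    have k1 : 3 * v.re + 4 * v.im ≤ 0 := by linarith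
    have k2 : 3 * v.re - 4 * v.im ≤ 0 := by linarith
    have k3 : -4 * v.re + 3 * v.im ≤ 0 := by linarith
    have k4 : 4 * v.re + 3 * v.im ≤ 0 := by linarith
    have hx : v.re ≤ 0 := by linarith
    have hy : v.im ≤ 0 := by linarith
    have hx0 : v.re = 0 := by
      have : 0 ≤ v.re := by nlinarith
      linarith
    have hy0 : v.im = 0 := by nlinarith
    rw [hx0, hy0] at hv2
    norm_num at hv2

/-- a point of the unit circle outside a finite set -/
theorem exists_unit (T : Set ℂ) (hT : T.Finite) : ∃ w : ℂ, ‖w‖ = 1 ∧ w ∉ T := by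
  have h0 : Infinite (Set.Ioc (-π) π) := Set.Ioc.infinite (by have := Real.pi_pos; linarith)
  have h1 : Infinite Circle := Infinite.of_injective _ Circle.argEquiv.symm.injective
  have h2 : (Set.range (fun w : Circle => (w : ℂ))).Infinite :=
    Set.infinite_range_of_injective Circle.coe_injective
  obtain ⟨w, ⟨w', rfl⟩, hw⟩ := (h2.diff hT).nonempty
  exact ⟨w', Circle.norm_coe w', hw⟩

/-- the step of the induction -/
theorem step {m : ℕ} (om : Fin m → ℂ) (h : Good om) : ∃ om' : Fin (m + 1) → ℂ, Good om' := by
  obtain ⟨w, hw1, hw⟩ := exists_unit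
    (Set.range (fun x : Fin m × Bool × Bool => om x.1 * bp x.2.1 / bp x.2.2) ∪
      Set.range (fun x : Fin m × Bool × Bool => -(om x.1 * bp x.2.1) / bp x.2.2))
    ((Set.finite_range _).union (Set.finite_range _))
  have hp : ∀ (k : Fin m) (s t : Bool), w * bp s ≠ om k * bp t := by
    intro k s t he
    apply hw
    left
    exact ⟨(k, t, s), by
      change om k * bp t / bp s = w
      rw [← he, mul_div_cancel_right₀ _ (bp_ne_zero s)]⟩
  have hn : ∀ (k : Fin m) (s t : Bool), w * bp s ≠ -(om k * bp t) := by
    intro k s t he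
    apply hw
    right
    exact ⟨(k, t, s), by
      change -(om k * bp t) / bp s = w
      rw [← he, mul_div_cancel_right₀ _ (bp_ne_zero s)]⟩
  have hw0 : w ≠ 0 := by
    intro h0
    rw [h0, norm_zero] at hw1
    exact zero_ne_one hw1
  have b0 : ∀ s, br (Fin.cons w om : Fin (m + 1) → ℂ) 0 s = w * bp s := fun s => rfl
  have b1 : ∀ (k : Fin m) (s : Bool), br (Fin.cons w om : Fin (m + 1) → ℂ) k.succ s = br om k s :=
    fun k s => rfl
  refine ⟨Fin.cons w om, ?_, ?_, ?_, ?_⟩
  · intro j
    refine Fin.cases ?_ ?_ j
    · exact hw1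
    · exact fun k => h.norm_om k
  · intro j k s t
    refine Fin.cases ?_ ?_ j
    · refine Fin.cases ?_ ?_ k
      · rw [b0, b0]
        intro he
        exact ⟨rfl, bp_inj (mul_left_cancel₀ hw0 he)⟩
      · intro k' he
        rw [b0, b1] at he
        exact absurd he (hp k' s t)
    · intro j'
      refine Fin.cases ?_ ?_ k
      · intro he
        rw [b0, b1] at he
        exact absurd he.symm (hp j' t s)
      · intro k' he
        rw [b1, b1] at he
        obtain ⟨h1, h2⟩ := h.inj j' k' s t he
        exact ⟨by rw [h1], h2⟩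
  · intro j k s t
    refine Fin.cases ?_ ?_ j
    · refine Fin.cases ?_ ?_ k
      · rw [b0, b0]
        intro he
        have h1 : w * bp s = w * -bp t := by rw [he]; ring
        exact bp_ne_neg s t (mul_left_cancel₀ hw0 h1)
      · intro k' he
        rw [b0, b1] at he
        exact absurd he (hn k' s t)
    · intro j'
      refine Fin.cases ?_ ?_ k
      · intro he
        rw [b0, b1] at he
        have h1 : w * bp t = -(om j' * bp s) := by
          change om j' * bp s = -(w * bp t) at he
          rw [he, neg_neg]
        exact absurd h1 (hn j' t s)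
      · intro k' he
        rw [b1, b1] at he
        exact h.anti j' k' s t he
  · intro v hv
    obtain ⟨j, s, hjs⟩ := h.cov v hv
    exact ⟨j.succ, s, hjs⟩

end OMM

open OMM in
/-- OM: existence of the rotations -/
theorem specOM : SpecOM := by
  intro m hm
  induction m, hm using Nat.le_induction with
  | base => exact base
  | succ m _ ih =>
    obtain ⟨om, h⟩ := ih
    exact step om h

end Pool.Agent.Lib.MP_ed6522_an.Tri
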