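import Pool.Agent.Lib.MP_ed6522_an.Tri.Spec

/-!
# REG: regular charts of the example
-/

set_option autoImplicit false

open Set Topology Filter Complex
open scoped Real ComplexConjugate

namespace Pool.Agent.Lib.MP_ed6522_an.Tri

namespace REGM

variable {m : ℕ} {om : Fin m → ℂ}

theorem continuous_bt : Continuous (bt : XT om → ℂ) := by
  unfold bt; fun_prop

theorem continuous_at' : Continuous (at' : XT om → ℂ) := by
  unfold at'; fun_prop

theorem continuous_wt : Continuous (wt : XT om → ℂ) := by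
  unfold wt; fun_prop

theorem norm_bt (P : XT om) : ‖bt P‖ = 1 := P.2.1

theorem norm_at' (P : XT om) : ‖at' P‖ = 1 := P.2.2.1

theorem at'_ne_zero (P : XT om) : at' P ≠ 0 := by
  rw [← norm_pos_iff, norm_at']; exact one_pos

theorem wt_pow (P : XT om) : wt P ^ 2 = DD om (bt P) (at' P) := P.2.2.2

theorem mem_Sec_two (x : ℂ) : x ∈ Sec 2 ↔ 0 < x.re := by
  have h := Complex.abs_arg_lt_pi_div_two_iff (z := x)
  constructor
  · rintro ⟨h1, h2⟩
    have h2' : |arg x| < π / 2 := by simpa using h2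
    rcases h.1 h2' with h3 | h3
    · exact h3
    · exact absurd h3 (slitPlane_ne_zero h1)
  · intro h1
    refine ⟨Or.inl h1, ?_⟩
    have := h.2 (Or.inl h1)
    simpa using this

theorem norm_zt (a₀ : ℂ) (P : XT om) : ‖zt a₀ P‖ = Real.exp (5 / 4 * arg (at' P / a₀)) := by
  rw [zt, norm_mul, norm_bt, mul_one, Complex.norm_real, Real.norm_of_nonneg (Real.exp_pos _).le]

theorem zt_ne_zero (a₀ : ℂ) (P : XT om) : zt a₀ P ≠ 0 := by
  rw [← norm_pos_iff, norm_zt]; exact Real.exp_pos _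

theorem bz_zt (a₀ : ℂ) (P : XT om) : bz (zt a₀ P) = bt P := by
  rw [bz, norm_zt, zt]
  have : ((Real.exp (5 / 4 * arg (at' P / a₀)) : ℝ) : ℂ) ≠ 0 := by
    exact_mod_cast (Real.exp_pos _).ne'
  field_simp

theorem az_zt {a₀ : ℂ} (ha₀ : ‖a₀‖ = 1) (P : XT om) : az a₀ (zt a₀ P) = at' P := by
  have ha : a₀ ≠ 0 := by rw [← norm_pos_iff, ha₀]; exact one_pos
  rw [az, norm_zt, Real.log_exp]
  have h1 : (4 / 5 * (5 / 4 * arg (at' P / a₀)) : ℝ) = arg (at' P / a₀) := by ring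
  rw [h1]
  have h2 : ‖at' P / a₀‖ = 1 := by rw [norm_div, norm_at', ha₀, div_one]
  have h3 := Complex.norm_mul_exp_arg_mul_I (at' P / a₀)
  rw [h2, Complex.ofReal_one, one_mul] at h3
  rw [h3]; field_simp

/-- The discriminant as a function of the affine coordinate. -/
noncomputable def Dz (om : Fin m → ℂ) (a₀ z : ℂ) : ℂ := DD om (bz z) (az a₀ z)

theorem Dz_zt {a₀ : ℂ} (ha₀ : ‖a₀‖ = 1) (P : XT om) : Dz om a₀ (zt a₀ P) = wt P ^ 2 := by
  rw [Dz, bz_zt, az_zt ha₀, wt_pow]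

/-- Membership in `XTset`. -/
theorem mem_XTset_of {a₀ z w : ℂ} (ha₀ : ‖a₀‖ = 1) (hz : z ≠ 0) (hw : w ^ 2 = Dz om a₀ z) :
    (bz z, az a₀ z, w) ∈ XTset om :=
  ⟨norm_bz hz, norm_az ha₀ z, hw⟩

theorem zt_of {a₀ z w : ℂ} (ha₀ : ‖a₀‖ = 1) (hz0 : z ≠ 0) (hz : |4 / 5 * Real.log ‖z‖| < π)
    (h : (bz z, az a₀ z, w) ∈ XTset om) :
    zt a₀ (⟨(bz z, az a₀ z, w), h⟩ : XT om) = z := by
  have h0 : at' (⟨(bz z, az a₀ z, w), h⟩ : XT om) = az a₀ z := rfl
  rw [zt, h0, arg_az ha₀ hz]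
  have h1 : (5 / 4 * (4 / 5 * Real.log ‖z‖) : ℝ) = Real.log ‖z‖ := by ring
  rw [h1, Real.exp_log (norm_pos_iff.2 hz0)]
  simp only [bt, bz]
  have : (‖z‖ : ℂ) ≠ 0 := by exact_mod_cast (norm_pos_iff.2 hz0).ne'
  field_simp

theorem continuousOn_Dz (a₀ : ℂ) : ContinuousOn (Dz om a₀) {0}ᶜ := by
  unfold Dz DD V
  apply continuousOn_finsetProd
  intro j _
  apply ContinuousOn.sub
  · apply ContinuousOn.add _ continuousOn_const
    apply Complex.continuous_ofReal.comp_continuousOn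
    exact Complex.continuous_re.comp_continuousOn (continuousOn_bz.mul continuousOn_const)
  · exact Complex.continuous_conj.comp_continuousOn (continuousOn_az a₀)

theorem continuousOn_zt (a₀ : ℂ) :
    ContinuousOn (zt a₀ : XT om → ℂ) {P | at' P / a₀ ∈ slitPlane} := by
  unfold zt
  apply ContinuousOn.mul _ continuous_bt.continuousOn
  apply Complex.continuous_ofReal.comp_continuousOn
  apply Real.continuous_exp.comp_continuousOn
  apply ContinuousOn.mul continuousOn_const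
  intro P hP
  apply ContinuousAt.continuousWithinAt
  have h1 : ContinuousAt (fun P : XT om => at' P / a₀) P :=
    (continuous_at'.div_const a₀).continuousAt
  exact ContinuousAt.comp (g := arg) (f := fun P : XT om => at' P / a₀)
    (Complex.continuousAt_arg hP) h1

/-- The coordinates `zt` for different base values differ by a positive factor, locally. -/
theorem zt_trans {a₀ : ℂ} (ha₀ : ‖a₀‖ = 1) {x : XT om} (hx : at' x / a₀ ∈ slitPlane) :
    ∀ᶠ y in 𝓝 x, zt a₀ y = (Real.exp (5 / 4 * arg (at' x / a₀)) : ℂ) * zt (at' x) y := by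
  have ha : a₀ ≠ 0 := by rw [← norm_pos_iff, ha₀]; exact one_pos
  have hax := at'_ne_zero x
  have hcont : ContinuousAt (fun y : XT om => arg (at' x / a₀) + arg (at' y / at' x)) x := by
    apply ContinuousAt.add continuousAt_const
    have h1 : ContinuousAt (fun y : XT om => at' y / at' x) x :=
      (continuous_at'.div_const (at' x)).continuousAt
    apply ContinuousAt.comp (g := arg) (f := fun y : XT om => at' y / at' x) _ h1
    apply Complex.continuousAt_arg
    rw [div_self hax]; exact Complex.one_mem_slitPlane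
  have hval : arg (at' x / a₀) + arg (at' x / at' x) ∈ Ioo (-π) π := by
    rw [div_self hax, Complex.arg_one, add_zero]
    have h2 := (Complex.mem_slitPlane_iff_arg.1 hx).1
    exact ⟨Complex.neg_pi_lt_arg _, (Complex.arg_le_pi _).lt_of_ne h2⟩
  filter_upwards [hcont.eventually_mem (isOpen_Ioo.mem_nhds hval)] with y hy
  have h1 : arg (at' y / a₀) = arg (at' x / a₀) + arg (at' y / at' x) := by
    have h2 : at' y / a₀ = (at' x / a₀) * (at' y / at' x) := by field_simp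
    rw [h2]
    apply (Complex.arg_mul_eq_add_arg_iff _ _).2 ⟨hy.1, hy.2.le⟩
    · exact div_ne_zero hax ha
    · exact div_ne_zero (at'_ne_zero y) hax
  rw [zt, zt, h1, mul_add, Real.exp_add]
  push_cast; ring

theorem root_sq {a₀ z w₀ : ℂ} (h₀ : w₀ ≠ 0) :
    (w₀ * (Dz om a₀ z / w₀ ^ 2) ^ (((2 : ℕ) : ℂ)⁻¹)) ^ 2 = Dz om a₀ z := by
  rw [mul_pow, Complex.cpow_nat_inv_pow _ (by omega : 2 ≠ 0)]
  have := pow_ne_zero 2 h₀
  field_simp

open scoped Classical in
/-- The regular chart with base point `P₀`. -/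
noncomputable def regChart (P₀ : XT om) (h₀ : wt P₀ ≠ 0) :
    OpenPartialHomeomorph (XT om) ℂ where
  toFun := zt (at' P₀)
  invFun z := if h : (bz z, az (at' P₀) z,
      wt P₀ * (Dz om (at' P₀) z / wt P₀ ^ 2) ^ (((2 : ℕ) : ℂ)⁻¹)) ∈ XTset om then
    ⟨_, h⟩ else P₀
  source := {P | at' P / at' P₀ ∈ slitPlane ∧ wt P / wt P₀ ∈ Sec 2}
  target := {z | (z ≠ 0 ∧ |4 / 5 * Real.log ‖z‖| < π) ∧ Dz om (at' P₀) z / wt P₀ ^ 2 ∈ slitPlane}
  map_source' := by
    rintro P ⟨h1, h2⟩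
    refine ⟨⟨zt_ne_zero _ _, ?_⟩, ?_⟩
    · rw [norm_zt, Real.log_exp]
      have h3 : (4 / 5 * (5 / 4 * arg (at' P / at' P₀)) : ℝ) = arg (at' P / at' P₀) := by ring
      rw [h3, abs_lt]
      exact ⟨Complex.neg_pi_lt_arg _,
        (Complex.arg_le_pi _).lt_of_ne (Complex.mem_slitPlane_iff_arg.1 h1).1⟩
    · rw [Dz_zt (norm_at' P₀), ← div_pow]
      exact pow_mem_slitPlane (by norm_num) h2
  map_target' := by
    rintro z ⟨⟨hz0, hz1⟩, hz2⟩
    have hw := root_sq (om := om) (a₀ := at' P₀) (z := z) h₀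
    have hmem := mem_XTset_of (norm_at' P₀) hz0 hw
    rw [dif_pos hmem]
    refine ⟨?_, ?_⟩
    · exact az_div_mem (norm_at' P₀) hz1
    · have : wt (⟨(bz z, az (at' P₀) z,
          wt P₀ * (Dz om (at' P₀) z / wt P₀ ^ 2) ^ (((2 : ℕ) : ℂ)⁻¹)), hmem⟩ : XT om) / wt P₀
          = (Dz om (at' P₀) z / wt P₀ ^ 2) ^ (((2 : ℕ) : ℂ)⁻¹) := by
        change wt P₀ * (Dz om (at' P₀) z / wt P₀ ^ 2) ^ (((2 : ℕ) : ℂ)⁻¹) / wt P₀ = _
        exact mul_div_cancel_left₀ _ h₀
      rw [this]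
      exact root_mem_Sec (by norm_num) hz2
  left_inv' := by
    rintro P ⟨h1, h2⟩
    have hw : wt P₀ * (Dz om (at' P₀) (zt (at' P₀) P) / wt P₀ ^ 2) ^ (((2 : ℕ) : ℂ)⁻¹) = wt P := by
      rw [Dz_zt (norm_at' P₀), ← div_pow, root_pow_of_mem_Sec (by norm_num) h2]
      field_simp
    simp only [hw, bz_zt, az_zt (norm_at' P₀)]
    have : (bt P, at' P, wt P) ∈ XTset om := P.2
    rw [dif_pos this]
    rfl
  right_inv' := by
    rintro z ⟨⟨hz0, hz1⟩, hz2⟩
    have hw := root_sq (om := om) (a₀ := at' P₀) (z := z) h₀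
    have hmem := mem_XTset_of (norm_at' P₀) hz0 hw
    rw [dif_pos hmem]
    exact zt_of (norm_at' P₀) hz0 hz1 hmem
  open_source := by
    apply IsOpen.inter
    · exact Complex.isOpen_slitPlane.preimage (continuous_at'.div_const _)
    · exact (isOpen_Sec 2).preimage (continuous_wt.div_const _)
  open_target := by
    have h1 : ContinuousOn (fun z => Dz om (at' P₀) z / wt P₀ ^ 2)
        {z : ℂ | z ≠ 0 ∧ |4 / 5 * Real.log ‖z‖| < π} :=
      ((continuousOn_Dz (at' P₀)).mono (fun z hz => hz.1)).div_const _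
    exact h1.isOpen_inter_preimage isOpen_annulus Complex.isOpen_slitPlane
  continuousOn_toFun := (continuousOn_zt _).mono fun P hP => hP.1
  continuousOn_invFun := by
    rw [Topology.IsInducing.subtypeVal.continuousOn_iff]
    have h1 : ContinuousOn (fun z : ℂ => (bz z, az (at' P₀) z,
          wt P₀ * (Dz om (at' P₀) z / wt P₀ ^ 2) ^ (((2 : ℕ) : ℂ)⁻¹)))
        {z | (z ≠ 0 ∧ |4 / 5 * Real.log ‖z‖| < π) ∧
          Dz om (at' P₀) z / wt P₀ ^ 2 ∈ slitPlane} := by
      apply ContinuousOn.prodMk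
      · exact continuousOn_bz.mono fun z hz => hz.1.1
      · apply ContinuousOn.prodMk
        · exact (continuousOn_az _).mono fun z hz => hz.1.1
        · apply ContinuousOn.mul continuousOn_const
          apply ContinuousOn.cpow_const
          · exact ((continuousOn_Dz (at' P₀)).mono (fun z hz => hz.1.1)).div_const _
          · intro z hz; exact hz.2
    apply h1.congr
    rintro z ⟨⟨hz0, hz1⟩, hz2⟩
    have hw := root_sq (om := om) (a₀ := at' P₀) (z := z) h₀
    have hmem := mem_XTset_of (norm_at' P₀) hz0 hw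
    change Subtype.val (dite _ _ _) = _
    rw [dif_pos hmem]

theorem regChart_coe (P₀ : XT om) (h₀ : wt P₀ ≠ 0) (P : XT om) :
    regChart P₀ h₀ P = zt (at' P₀) P := rfl

theorem mem_regChart_source (P₀ : XT om) (h₀ : wt P₀ ≠ 0) (P : XT om) :
    P ∈ (regChart P₀ h₀).source ↔ at' P / at' P₀ ∈ slitPlane ∧ 0 < (wt P / wt P₀).re := by
  rw [← mem_Sec_two]; exact Iff.rfl

theorem mem_regChart_target (P₀ : XT om) (h₀ : wt P₀ ≠ 0) (z : ℂ) :
    z ∈ (regChart P₀ h₀).target ↔ (z ≠ 0 ∧ |4 / 5 * Real.log ‖z‖| < π) ∧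
      DD om (bz z) (az (at' P₀) z) / wt P₀ ^ 2 ∈ slitPlane := Iff.rfl

theorem regChart_mem_atlas (P₀ : XT om) (h₀ : wt P₀ ≠ 0) : regChart P₀ h₀ ∈ atlasT om := by
  intro x hx
  rw [mem_regChart_source] at hx
  refine ⟨?_, Real.exp (5 / 4 * arg (at' x / at' P₀)), Real.exp_pos _, 0, ?_⟩
  · intro h
    rw [h, zero_div] at hx
    exact lt_irrefl _ hx.2
  · filter_upwards [zt_trans (norm_at' P₀) hx.1] with y hy
    rw [regChart_coe, hy, add_zero]

theorem main (om : Fin m → ℂ) : RegS om where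
  trans := fun a₀ ha₀ x hx => zt_trans ha₀ hx
  chart := fun P₀ h₀ => ⟨regChart P₀ h₀, regChart_mem_atlas P₀ h₀, regChart_coe P₀ h₀,
    mem_regChart_source P₀ h₀, mem_regChart_target P₀ h₀⟩

end REGM

theorem specREG : SpecREG := by
  intro m om
  exact REGM.main om

end Pool.Agent.Lib.MP_ed6522_an.Tri
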