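import Pool.Agent.Lib.MP_ed6522_an.Main

/-!
# Surfaces without immersed half-planes: specification of the example

`w ^ 2 = ∏ j, (Re (b / ω_j) + 2/5 - conj a)` over the torus `|b| = |a| = 1`, a double cover of the
Hopf torus branched over `2 m` points (genus `m + 1`).
-/

set_option autoImplicit false

open Set Topology Filter Complex
open scoped Real ComplexConjugate

namespace Pool.Agent.Lib.MP_ed6522_an

/-- The surface `X` admits an affinely immersed open half-plane: a map `F` from the half-plane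
`{z | 0 < Re (z / v)}`, `|v| = 1`, to the complement of the cone points, which in affine charts has
the form `z ↦ a z + c`, `a > 0` real. (By a theorem of Veech the surfaces without immersed
half-plane are those which have a triangulation by saddle connections. A surface with an affine
cylinder of angle at least `π` admits an immersed half-plane.) -/
def HasHalfPlane (X : AffSurf) : Prop :=
  ∃ v : ℂ, ‖v‖ = 1 ∧ ∃ F : ℂ → X.carrier, ∀ z : ℂ, 0 < (z * conj v).re →
    ContinuousAt F z ∧ F z ∉ X.sing ∧ ∀ e ∈ X.atlas, F z ∈ e.source →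
      ∃ a : ℝ, 0 < a ∧ ∃ c : ℂ, ∀ᶠ y in 𝓝 z, e (F y) = a * y + c

/-- The set of all surfaces of genus `g` without immersed half-plane, in the moduli space. -/
def noHalfPlaneSet (g : ℕ) : Set (Moduli g) :=
  {m | ∃ X : SurfOfGenus g, Moduli.mk X = m ∧ ¬ HasHalfPlane X.1}

namespace Tri

/-- The two points `(3 ± 4 i) / 5`. -/
noncomputable def bp (s : Bool) : ℂ := if s then bplus else conj bplus

/-- The branch directions. -/
noncomputable def br {m : ℕ} (om : Fin m → ℂ) (j : Fin m) (s : Bool) : ℂ := om j * bp s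

/-- Conditions on the rotations `ω_j`. -/
structure Good {m : ℕ} (om : Fin m → ℂ) : Prop where
  norm_om : ∀ j, ‖om j‖ = 1
  inj : ∀ j k : Fin m, ∀ s t : Bool, br om j s = br om k t → j = k ∧ s = t
  anti : ∀ j k : Fin m, ∀ s t : Bool, br om j s ≠ -br om k t
  cov : ∀ v : ℂ, ‖v‖ = 1 → ∃ (j : Fin m) (s : Bool), 0 < (br om j s * conj v).re

/-- One factor. -/
noncomputable def V (b a : ℂ) : ℂ := (b.re : ℂ) + 2 / 5 - conj a

/-- The discriminant of the double cover. -/
noncomputable def DD {m : ℕ} (om : Fin m → ℂ) (b a : ℂ) : ℂ := ∏ j, V (b * conj (om j)) a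

/-- The underlying set of the example. -/
def XTset {m : ℕ} (om : Fin m → ℂ) : Set (ℂ × ℂ × ℂ) :=
  {P | ‖P.1‖ = 1 ∧ ‖P.2.1‖ = 1 ∧ P.2.2 ^ 2 = DD om P.1 P.2.1}

/-- The underlying space of the example. -/
abbrev XT {m : ℕ} (om : Fin m → ℂ) : Type := XTset om

variable {m : ℕ} {om : Fin m → ℂ}

/-- The coordinate `b`. -/
def bt (P : XT om) : ℂ := P.1.1

/-- The coordinate `a`. -/
def at' (P : XT om) : ℂ := P.1.2.1

/-- The coordinate `w`. -/
def wt (P : XT om) : ℂ := P.1.2.2

/-- The affine coordinate relative to the base value `a₀` of `a`. -/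
noncomputable def zt (a₀ : ℂ) (P : XT om) : ℂ :=
  (Real.exp (5 / 4 * arg (at' P / a₀)) : ℂ) * bt P

/-- The cone points: `w = 0`. -/
def singT (om : Fin m → ℂ) : Set (XT om) := {P | wt P = 0}

/-- The atlas of the example. -/
def atlasT (om : Fin m → ℂ) : Set (OpenPartialHomeomorph (XT om) ℂ) :=
  {e | ∀ x ∈ e.source, wt x ≠ 0 ∧
    ∃ a : ℝ, 0 < a ∧ ∃ c : ℂ, ∀ᶠ y in 𝓝 x, e y = a * zt (at' x) y + c}

/-- REG: regular charts.

PROOF. Copy of `Ex2.lean` with `n = 2` (there `w ^ n = vz a₀ z`, here `w ^ 2 = DD om (bz z) (az a₀ z)`;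
`a` is now a coordinate of the space, so `af_of` is trivial). `zt_trans` is `zc_trans`. The chart
(`regChart`): source `at' P / at' P₀ ∈ slitPlane`, `0 < Re (w / w₀)`; target as stated; inverse
`z ↦ (bz z, az a₀ z, w₀ * (DD om (bz z) (az a₀ z) / w₀ ^ 2) ^ (1/2))`, `a₀ = at' P₀`. For the root use
`root_mem_Sec`, `root_pow_of_mem_Sec`, `pow_mem_slitPlane` with `n = 2` (`Sec 2` is the set `0 < Re x`,
by `Complex.abs_arg_lt_pi_div_two_iff`). Continuity of `z ↦ DD om (bz z) (az a₀ z)` on `{0}ᶜ` from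
`continuousOn_bz`, `continuousOn_az`, `continuous_finset_prod`. -/
structure RegS {m : ℕ} (om : Fin m → ℂ) : Prop where
  trans : ∀ a₀ : ℂ, ‖a₀‖ = 1 → ∀ x : XT om, at' x / a₀ ∈ slitPlane →
    ∀ᶠ y in 𝓝 x, zt a₀ y = (Real.exp (5 / 4 * arg (at' x / a₀)) : ℂ) * zt (at' x) y
  chart : ∀ P₀ : XT om, wt P₀ ≠ 0 → ∃ e ∈ atlasT om, (∀ P, e P = zt (at' P₀) P) ∧
    (∀ P, P ∈ e.source ↔ at' P / at' P₀ ∈ slitPlane ∧ 0 < (wt P / wt P₀).re) ∧
    ∀ z, z ∈ e.target ↔ (z ≠ 0 ∧ |4 / 5 * Real.log ‖z‖| < π) ∧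
      DD om (bz z) (az (at' P₀) z) / wt P₀ ^ 2 ∈ slitPlane

def SpecREG : Prop := ∀ {m : ℕ} (om : Fin m → ℂ), RegS om

/-- NHP: there is no immersed half-plane (from REG).

PROOF. Let `H = {z | 0 < Re (z * conj v)}` and `F` as in the statement. For `z ∈ H` the chart at
`P₀ = F z` gives `a > 0`, `c` with `exp (5/4 * arg (at' (F y) / at' (F z))) * bt (F y) = a * y + c` for `y`
near `z`; as `|bt| = 1`: (1) `a y + c ≠ 0`, `bt (F y) = (a y + c) / |a y + c|`, and
`arg (at' (F y) / at' (F z)) = 4/5 * log |a y + c|`, hence `at' (F y) = at' (F z) * exp (i 4/5 log |a y + c|)`.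
Put `q z = -c / a` (the apex): `a y + c = a (y - q z)`. So near `z`, with `q = q z` and a constant
`al = at' (F z) * exp (i 4/5 log a)` of modulus 1:
  (2) `y ≠ q`, `bt (F y) = (y - q) / |y - q|`, `at' (F y) = al * exp (i 4/5 log |y - q|)`.
Fix `z₀ ∈ H` (for instance `z₀ = v`), `q = q z₀`, `al`. The set `A` of all `z ∈ H` such that (2) holds for
all `y` near `z` is open, contains `z₀`, and is relatively closed: if `z ∈ H` is in the closure of `A`, take
`q', al'` for `z` (valid on a ball `B` around `z`) and a point `y₁ ∈ A ∩ B`; near `y₁` both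
representations hold: `(y - q) / |y - q| = (y - q') / |y - q'|` for `y` in an open set, i.e. `y - q'` is a
positive multiple of `y - q` for all `y` in a ball: `q - q'` is a real multiple of `y - q` for all `y` in a
ball, so `q = q'`, and then `al = al'`. So `z ∈ A`. `H` is convex, hence preconnected: `A = H`
(`IsPreconnected.subset_of_closure_inter_subset` or `IsPreconnected.subset_of_clopen`..). Now
`q ∉ H` (as `y ≠ q` for `y ∈ H`). `cov`: `j, s` with `0 < Re (br j s * conj v)`. Let `t > 0` be large with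
`al * exp (i 4/5 log t) = 1`: `t = exp (5/4 * (2 π k - arg al))`, `k` large. `y = q + t * br j s` is in
`H` for large `k`. `bt (F y) = br j s`, `at' (F y) = 1`, so the factor `V (br j s * conj (om j)) 1 = V (bp s) 1 = 0`,
`wt (F y) ^ 2 = DD .. = 0`, contradiction to `wt (F y) ≠ 0`. -/
def SpecNHP : Prop :=
  ∀ {m : ℕ} (om : Fin m → ℂ), Good om → RegS om →
    ¬ ∃ v : ℂ, ‖v‖ = 1 ∧ ∃ F : ℂ → XT om, ∀ z : ℂ, 0 < (z * conj v).re →
      ContinuousAt F z ∧ wt (F z) ≠ 0 ∧ ∀ e ∈ atlasT om, F z ∈ e.source →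
        ∃ a : ℝ, 0 < a ∧ ∃ c : ℂ, ∀ᶠ y in 𝓝 z, e (F y) = a * y + c

/-- OM: existence of the rotations.

PROOF. Induction over `m ≥ 2` of: there is `om` with the four properties of `Good` (with `Fin.snoc`; `cov`
is inherited). `m = 2`: `om = ![1, I]`, the points are `(3 ± 4i)/5`, `(-4 + 3i)/5`, `(4 + 3i)/5`; `cov`: with
`v = x + i y`, `x² + y² = 1`, the four numbers `5 Re (br * conj v)` are `3x + 4y`, `3x - 4y`, `-4x + 3y`,
`4x + 3y`; if all are `≤ 0` then `3x ≤ -4|y|`, `3y ≤ -4|x|`, so `x = y = 0`. Step: choose `w` on the unit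
circle (an infinite set, for instance the injective image of `t ∈ (-π, π)` under `exp (i t)`) outside the
finite set of all `± om k * bp t / bp s`; `bp true ≠ ± bp false`. -/
def SpecOM : Prop := ∀ m : ℕ, 2 ≤ m → ∃ om : Fin m → ℂ, Good om

/-- CON: the example is compact and connected.

PROOF. As in `Ex1.lean` (compactness: closed and bounded, `|w|² = |DD| ≤ 3 ^ m`) and `Ex4.lean`
(connectedness: the projection to the torus is open and closed (`isOpenMap_pow_complex`, `n = 2`), the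
torus is connected, and the fibre over the cone point `(br 0 true, 1)` is one point `(br 0 true, 1, 0)`).
Here the space has three coordinates, `proj P = (bt P, at' P)`. -/
def SpecCON : Prop :=
  ∀ {m : ℕ} (om : Fin m → ℂ), Good om → 1 ≤ m → CompactSpace (XT om) ∧ ConnectedSpace (XT om)

/-- CNT: there are `2 m` cone points.

PROOF. `V b 1 = 0` or `V b a = 0` with `|a| = |b| = 1` iff `a = 1` and `Re b = 3/5` (as `a = conj a` is real,
so `±1`, and `Re b = -7/5` is impossible), iff `a = 1` and `b = bp s` for some `s` (see `re_of_wf_zero`,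
`singX_eq` in `Ex1.lean`). So `wt P = 0` iff `P = (br om j s, 1, 0)` for some `j, s`; by `inj` this is a
bijection of `Fin m × Bool` with `singT om`. -/
structure CntS {m : ℕ} (om : Fin m → ℂ) : Prop where
  zero : ∀ b a : ℂ, ‖b‖ = 1 → ‖a‖ = 1 → (DD om b a = 0 ↔ a = 1 ∧ ∃ j s, b = br om j s)
  fin : (singT om).Finite
  card : (singT om).ncard = 2 * m

def SpecCNT : Prop := ∀ {m : ℕ} (om : Fin m → ℂ), Good om → CntS om

/-- CONE: the cone points (from REG, CNT).

PROOF. As `coneChart` in `Ex3.lean` and `coneAt_of` in `Ex5.lean`, with `n = 2`. Let `p = br om j s`. With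
`V₀ z = vz 1 z = V (bz z) (az 1 z)` (Ex2, Ex3): `V₀ z = (z - bplus) * Hf z`, `Hf` continuous at `z ≠ 0`,
`Hf bplus ≠ 0`, and `V₀ (conj z) = V₀ z`. For `s = true`: `V (bz z * conj (om j)) (az 1 z) = V₀ (z / om j) =
(z - p) * (Hf (z / om j) / om j)`. For `s = false`: it is `V₀ (conj (z / om j)) =
conj (z - p) * (Hf (conj (z / om j)) / conj (om j))`. The other factors are continuous and nonzero at `z = p`
(`inj`). So `DD om (bz z) (az 1 z) = σ (z - p) * H z`, `σ = id` or `conj`, `H` continuous at all `z ≠ 0` and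
`H p ≠ 0`. Let `r₀ ^ 2 = H p`, `rf z = r₀ * (H z / r₀ ^ 2) ^ (1/2)`, continuous and nonzero on a small ball
`B` around `p` (`H z / r₀ ^ 2 ∈ slitPlane` there), `rf z ^ 2 = H z`. Chart: source `at' P / 1 ∈ slitPlane`,
`zt 1 P ∈ B`; `ψ P = σ (wt P / rf (zt 1 P))`; `ψ P ^ 2 = zt 1 P - p`; target `{ζ | p + ζ ^ 2 ∈ B}`; inverse
`ζ ↦ (bz z, az 1 z, σ ζ * rf z)`, `z = p + ζ ^ 2`. (Do both cases at once with `σ : ℂ ≃ₜ ℂ` multiplicative,
`σ (σ x) = x`, or prove `s = true` and copy.) `ψ P = 0` only for `wt P = 0`, and then `zt 1 P = p` and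
`at' P = 1`. The condition on charts of the atlas: `coneAt_of` with `RegS.trans` for `a₀ = 1`. -/
def SpecCONE : Prop :=
  ∀ {m : ℕ} (om : Fin m → ℂ), Good om → RegS om → CntS om →
    ∀ s ∈ singT om, ConeAt (atlasT om) (singT om) s 2

/-- A closed chain in the example (the fields of `Chain`). -/
structure ChainT {m : ℕ} (om : Fin m → ℂ) (u : ℂ) where
  N : ℕ
  e : ℕ → OpenPartialHomeomorph (XT om) ℂ
  x : ℕ → XT om
  r : ℕ → ℝ
  a : ℕ → ℝ
  c : ℕ → ℂ
  N_pos : 0 < N
  e_N : e N = e 0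
  x_N : x N = x 0
  mem_atlas : ∀ j < N, e j ∈ atlasT om
  r_pos : ∀ j < N, 0 < r j
  mem_left : ∀ j < N, x j ∈ (e j).source
  mem_right : ∀ j < N, x (j + 1) ∈ (e j).source
  step : ∀ j < N, e j (x (j + 1)) = e j (x j) + r j * u
  seg : ∀ j < N, ∀ t ∈ Icc (0 : ℝ) (r j), e j (x j) + t * u ∈ (e j).target
  a_pos : ∀ j < N, 0 < a j
  trans : ∀ j < N, ∀ᶠ y in 𝓝 (x (j + 1)), e (j + 1) y = a j * e j y + c j
  hol : ∏ j ∈ Finset.range N, a j ≠ 1

/-- CHN: closed chains in every direction (from REG, CNT).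

PROOF. Copy of `Ex6.lean` with `n = 2`. By `anti` one of `b = u`, `b = -u` is not a branch direction; then
`DD om b a ≠ 0` for all `|a| = 1` (`CntS.zero`). `a ↦ DD om b a` is continuous on the unit circle, so there
are `μ > 0` with `|DD om b a| ≥ μ`, and `δ > 0` with `|DD om b a' - DD om b a| < μ` for `|a' - a| ≤ δ`
(uniform continuity on the compact circle). Choose `M : ℕ` with `h = 2 π / M ≤ δ`, `h < π`;
`aj j = exp (i j h)`, period `M`; `wj 0 ^ 2 = DD om b 1`, `wj (j+1) = wj j * (DD_(j+1) / DD_j) ^ (1/2)`;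
`wj (2 M) = wj 0`; `N = 2 M`; charts from `RegS.chart` (choose them as a function of the point, so that
`e N = e 0`), `r j = exp (5/4 h) - 1`, `a j = exp (-(5/4 h))`, `c j = 0`, as there. -/
def SpecCHN : Prop :=
  ∀ {m : ℕ} (om : Fin m → ℂ), Good om → RegS om → CntS om → ∀ u : ℂ, ‖u‖ = 1 →
    Nonempty (ChainT om u) ∨ Nonempty (ChainT om (-u))

end Tri

/-- FIN: even among the surfaces without immersed half-plane the surfaces with an exceptional
direction are not dense, for every genus `g ≥ 3`. -/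
def SpecFIN : Prop :=
  ∀ g : ℕ, 3 ≤ g →
    ∃ X₀ : SurfOfGenus g, ¬ HasHalfPlane X₀.1 ∧
      ∃ U : Set (Moduli g), IsOpen U ∧ Moduli.mk X₀ ∈ U ∧
        ∀ X : SurfOfGenus g, Moduli.mk X ∈ U → ¬ HasExceptionalDirection X.1

end Pool.Agent.Lib.MP_ed6522_an
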